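import Pool.Agent.Q73.Semi.LenArea

/-!
# A growth comparison for univalent self-maps of the right half plane
-/

set_option autoImplicit false

open Complex Metric MeasureTheory Set Filter Topology

namespace Q73.Semi

open scoped Real

/-- the Moebius map `ζ ↦ (1 + ζ/r)/(1 + ζ/R)` -/
noncomputable def mob (r R : ℝ) (ζ : ℂ) : ℂ := (1 + ζ / r) / (1 + ζ / R)

variable {r R : ℝ} {ζ : ℂ}

lemma re_one_add (hr : 0 < r) (hζ : 0 < ζ.re) : 1 < (1 + ζ / r).re := by
  rw [add_re, one_re, Complex.div_ofReal_re]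
  have : 0 < ζ.re / r := div_pos hζ hr
  linarith

lemma one_add_ne (hr : 0 < r) (hζ : 0 < ζ.re) : 1 + ζ / r ≠ 0 := by
  intro h
  have := re_one_add hr hζ
  rw [h] at this
  simp at this
  linarith

lemma mob_re_pos (hr : 0 < r) (hR : 0 < R) (hζ : 0 < ζ.re) : 0 < (mob r R ζ).re := by
  unfold mob
  have h1 := re_one_add hr hζ
  have h2 := re_one_add hR hζ
  have h3 : 0 < Complex.normSq (1 + ζ / R) := Complex.normSq_pos.2 (one_add_ne hR hζ)
  rw [div_re, ← add_div]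
  apply div_pos _ h3
  have e1 : (1 + ζ / r).im = ζ.im / r := by simp
  have e2 : (1 + ζ / R).im = ζ.im / R := by simp
  rw [e1, e2]
  have h4 : 0 ≤ ζ.im / r * (ζ.im / R) := by
    have : ζ.im / r * (ζ.im / R) = ζ.im ^ 2 / (r * R) := by field_simp
    rw [this]; positivity
  nlinarith

lemma normSq_one_add (r : ℝ) (ζ : ℂ) :
    ‖1 + ζ / r‖ ^ 2 = 1 + 2 * (ζ.re / r) + (‖ζ‖ / r) ^ 2 := by
  rw [div_pow, ← Complex.normSq_eq_norm_sq, ← Complex.normSq_eq_norm_sq, Complex.normSq_apply,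
    Complex.normSq_apply]
  have e1 : (1 + ζ / r).im = ζ.im / r := by simp
  have e2 : (1 + ζ / r).re = 1 + ζ.re / r := by simp
  rw [e1, e2]
  by_cases hr : r = 0
  · simp [hr]
  · field_simp
    ring

lemma one_le_norm_mob (hr : 0 < r) (hrR : r ≤ R) (hζ : 0 < ζ.re) : 1 ≤ ‖mob r R ζ‖ := by
  have hR : 0 < R := lt_of_lt_of_le hr hrR
  unfold mob
  rw [norm_div, le_div_iff₀ (norm_pos_iff.2 (one_add_ne hR hζ)), one_mul]
  apply le_of_sq_le_sq _ (norm_nonneg _)
  rw [normSq_one_add, normSq_one_add]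
  gcongr

lemma norm_mob_le (hr : 0 < r) (hrR : r ≤ R) (hζ : 0 < ζ.re) : ‖mob r R ζ‖ ≤ R / r := by
  have hR : 0 < R := lt_of_lt_of_le hr hrR
  unfold mob
  rw [norm_div, div_le_iff₀ (norm_pos_iff.2 (one_add_ne hR hζ))]
  apply le_of_sq_le_sq _ (by positivity)
  rw [mul_pow, normSq_one_add, normSq_one_add]
  have h1 : 1 ≤ R / r := by rw [le_div_iff₀ hr]; linarith
  have e : (R / r) ^ 2 * (1 + 2 * (ζ.re / R) + (‖ζ‖ / R) ^ 2) =
      (R / r) ^ 2 + 2 * (ζ.re / r) * (R / r) + (‖ζ‖ / r) ^ 2 := by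
    field_simp
  rw [e]
  have h2 : 0 < ζ.re / r := div_pos hζ hr
  nlinarith

lemma norm_mob_le_two (hr : 0 < r) (hR : 0 < R) (hζ : 0 < ζ.re) (h : ‖ζ‖ ≤ r) :
    ‖mob r R ζ‖ ≤ 2 := by
  unfold mob
  have h1 : 1 ≤ ‖1 + ζ / R‖ := (re_one_add hR hζ).le.trans (Complex.re_le_norm _)
  have h2 : ‖1 + ζ / r‖ ≤ 2 := by
    calc ‖1 + ζ / r‖ ≤ ‖(1:ℂ)‖ + ‖ζ / r‖ := norm_add_le _ _
      _ = 1 + ‖ζ‖ / r := by
          rw [norm_one, norm_div, Complex.norm_real, Real.norm_eq_abs, abs_of_pos hr]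
      _ ≤ 2 := by
          have : ‖ζ‖ / r ≤ 1 := by rw [div_le_one hr]; exact h
          linarith
  rw [norm_div, div_le_iff₀ (by linarith)]
  linarith

lemma le_norm_mob (hr : 0 < r) (hR : 0 < R) (hζ : 0 < ζ.re) (h : R ≤ ‖ζ‖) :
    R / (2 * r) ≤ ‖mob r R ζ‖ := by
  unfold mob
  have hn : 0 < ‖1 + ζ / R‖ := norm_pos_iff.2 (one_add_ne hR hζ)
  have h1 : ‖ζ‖ / r ≤ ‖1 + ζ / r‖ := by
    apply le_of_sq_le_sq _ (norm_nonneg _)
    rw [normSq_one_add]
    have : 0 < ζ.re / r := div_pos hζ hr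
    linarith
  have h2 : ‖1 + ζ / R‖ ≤ 2 * ‖ζ‖ / R := by
    calc ‖1 + ζ / R‖ ≤ ‖(1:ℂ)‖ + ‖ζ / R‖ := norm_add_le _ _
      _ = 1 + ‖ζ‖ / R := by
          rw [norm_one, norm_div, Complex.norm_real, Real.norm_eq_abs, abs_of_pos hR]
      _ ≤ 2 * ‖ζ‖ / R := by
          have : 1 ≤ ‖ζ‖ / R := by rw [le_div_iff₀ hR]; linarith
          have e : 2 * ‖ζ‖ / R = ‖ζ‖ / R + ‖ζ‖ / R := by ring
          rw [e]; linarith
  rw [norm_div, le_div_iff₀ hn]
  calc R / (2 * r) * ‖1 + ζ / R‖ ≤ R / (2 * r) * (2 * ‖ζ‖ / R) := by gcongr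
    _ = ‖ζ‖ / r := by field_simp
    _ ≤ _ := h1

lemma mob_inj (hr : 0 < r) (hrR : r < R) {ζ' : ℂ} (hζ : 0 < ζ.re) (hζ' : 0 < ζ'.re)
    (h : mob r R ζ = mob r R ζ') : ζ = ζ' := by
  have hR : 0 < R := hr.trans hrR
  unfold mob at h
  rw [div_eq_div_iff (one_add_ne hR hζ) (one_add_ne hR hζ')] at h
  have h1 : (ζ - ζ') * ((R:ℂ) - r) = 0 := by
    have hrc : (r:ℂ) ≠ 0 := by exact_mod_cast hr.ne'
    have hRc : (R:ℂ) ≠ 0 := by exact_mod_cast hR.ne'
    field_simp at h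
    linear_combination h
  rcases mul_eq_zero.1 h1 with h2 | h2
  · exact sub_eq_zero.1 h2
  · exfalso
    have h3 : ((R - r : ℝ) : ℂ) = 0 := by push_cast; exact h2
    have : R - r = 0 := by exact_mod_cast h3
    linarith

/-- the constant of the comparison -/
noncomputable def cmpC : ℝ := Real.exp (4 * Real.log 2 + π ^ 2 / Real.log 2)

/-- **Comparison.**  `J` is a univalent self-map of the right half plane with `|J x| ≤ K x` for
`x ≥ 1`.  If each semicircle `|z| = r`, `R ≤ r ≤ 2R`, contains a point `z` with `|J z| ≥ R'`, then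
`R' ≤ C K R`. -/
theorem half_plane_bound {J : ℂ → ℂ} (hJ : DifferentiableOn ℂ J {z | 0 < z.re})
    (hinj : InjOn J {z | 0 < z.re}) (hm : ∀ z : ℂ, 0 < z.re → 0 < (J z).re) {K R R' : ℝ}
    (hK : 0 < K) (hR : 1 ≤ R) (hx : ∀ x : ℝ, 1 ≤ x → ‖J x‖ ≤ K * x)
    (hpt : ∀ r ∈ Icc R (2 * R), ∃ ζ : ℂ, 0 < ζ.re ∧ ‖ζ‖ = r ∧ R' ≤ ‖J ζ‖) :
    R' ≤ cmpC * (2 * K * R) := by
  have hlog : 0 < Real.log 2 := Real.log_pos (by norm_num)
  have hpi := Real.pi_pos
  set r₁ := 2 * K * R with hr₁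
  have hR0 : 0 < R := by linarith
  have hr₁0 : 0 < r₁ := by positivity
  have hC1 : 1 ≤ cmpC := Real.one_le_exp (by positivity)
  rcases le_or_gt R' r₁ with hle | hlt
  · nlinarith
  have hR'0 : 0 < R' := hr₁0.trans hlt
  set L := Real.log (R' / r₁) with hL
  have hLpos : 0 < L := Real.log_pos (by rw [lt_div_iff₀ hr₁0]; linarith)
  -- it suffices to bound `L`
  suffices hLb : L ≤ 4 * Real.log 2 + π ^ 2 / Real.log 2 by
    have h1 : R' / r₁ ≤ cmpC := by
      rw [← Real.exp_log (div_pos hR'0 hr₁0)]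
      exact Real.exp_le_exp.2 hLb
    rwa [div_le_iff₀ hr₁0] at h1
  rcases le_or_gt L (2 * Real.log 2) with h2 | h2
  · have : 0 < π ^ 2 / Real.log 2 := by positivity
    linarith
  -- the function on the strip
  have hH : ∀ u ∈ Strip, 0 < (exp u).re := by
    intro u hu
    rw [Complex.exp_re]
    apply mul_pos (Real.exp_pos _)
    exact Real.cos_pos_of_mem_Ioo (abs_lt.1 hu)
  set G : ℂ → ℂ := fun u => log (mob r₁ R' (J (exp u))) with hG
  have hmobd : ∀ ζ : ℂ, 0 < ζ.re → DifferentiableAt ℂ (mob r₁ R') ζ := by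
    intro ζ hζ
    have h3 : DifferentiableAt ℂ (fun ζ : ℂ => 1 + ζ / (r₁ : ℂ)) ζ := by fun_prop
    have h4 : DifferentiableAt ℂ (fun ζ : ℂ => 1 + ζ / (R' : ℂ)) ζ := by fun_prop
    exact h3.div h4 (one_add_ne hR'0 hζ)
  have hopenH : IsOpen {z : ℂ | 0 < z.re} := isOpen_lt continuous_const Complex.continuous_re
  have hGd : DifferentiableOn ℂ G Strip := by
    intro u hu
    have h3 := hH u hu
    have h4 := hm _ h3
    have h5 : DifferentiableAt ℂ J (exp u) := hJ.differentiableAt (hopenH.mem_nhds h3)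
    have h6 : DifferentiableAt ℂ (fun u => mob r₁ R' (J (exp u))) u := by
      have h7 : DifferentiableAt ℂ (fun u => J (exp u)) u :=
        DifferentiableAt.comp (f := exp) (g := J) u h5 Complex.differentiableAt_exp
      exact DifferentiableAt.comp (f := fun u => J (exp u)) (g := mob r₁ R') u (hmobd _ h4) h7
    apply DifferentiableAt.differentiableWithinAt
    apply h6.clog
    left
    exact mob_re_pos hr₁0 hR'0 h4
  have hGinj : InjOn G Strip := by
    intro u hu v hv huv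
    have h3 := hm _ (hH u hu)
    have h4 := hm _ (hH v hv)
    simp only [hG] at huv
    have h5 : mob r₁ R' (J (exp u)) = mob r₁ R' (J (exp v)) := by
      have h6 : mob r₁ R' (J (exp u)) ≠ 0 := by
        intro h; have := mob_re_pos hr₁0 hR'0 h3; rw [h] at this; simp at this
      have h7 : mob r₁ R' (J (exp v)) ≠ 0 := by
        intro h; have := mob_re_pos hr₁0 hR'0 h4; rw [h] at this; simp at this
      rw [← Complex.exp_log h6, ← Complex.exp_log h7, huv]
    have h8 := hinj (hH u hu) (hH v hv) (mob_inj hr₁0 hlt h3 h4 h5)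
    apply Complex.exp_inj_of_neg_pi_lt_of_le_pi _ _ _ _ h8
    · have := (abs_lt.1 (show |u.im| < π / 2 from hu)).1; linarith
    · have := (abs_lt.1 (show |u.im| < π / 2 from hu)).2; linarith
    · have := (abs_lt.1 (show |v.im| < π / 2 from hv)).1; linarith
    · have := (abs_lt.1 (show |v.im| < π / 2 from hv)).2; linarith
  have himg : ∀ u ∈ Strip, G u ∈ (Icc 0 L ×ℂ Icc (-(π / 2)) (π / 2)) := by
    intro u hu
    have h3 := hm _ (hH u hu)
    have h4 := one_le_norm_mob hr₁0 hlt.le h3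
    have h5 := norm_mob_le hr₁0 hlt.le h3
    have h6 := mob_re_pos hr₁0 hR'0 h3
    rw [Complex.mem_reProdIm]
    simp only [hG]
    rw [Complex.log_re, Complex.log_im]
    refine ⟨⟨Real.log_nonneg h4, ?_⟩, ?_⟩
    · rw [hL]
      exact Real.log_le_log (by linarith) h5
    · have h7 := Complex.abs_arg_le_pi_div_two_iff.2 h6.le
      exact abs_le.1 h7
  have key := length_area (a := Real.log R) (D := L - 2 * Real.log 2) hGd hGinj hLpos.le
    (by linarith) himg ?_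
  · -- conclude
    have h3 : L * Real.log 2 / 2 ≤ 2 * Real.log 2 ^ 2 + π ^ 2 / 2 := by nlinarith
    have h4 : L * Real.log 2 ≤ 4 * Real.log 2 * Real.log 2 + π ^ 2 := by nlinarith
    have h5 : (4 * Real.log 2 + π ^ 2 / Real.log 2) * Real.log 2 =
        4 * Real.log 2 * Real.log 2 + π ^ 2 := by field_simp
    rw [← h5] at h4
    exact le_of_mul_le_mul_right h4 hlog
  · intro s hs
    set r := Real.exp s with hr
    have hr1 : R ≤ r := by
      rw [hr, ← Real.exp_log hR0]; exact Real.exp_le_exp.2 hs.1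
    have hr2 : r ≤ 2 * R := by
      have : Real.exp (Real.log R + Real.log 2) = 2 * R := by
        rw [Real.exp_add, Real.exp_log hR0, Real.exp_log (by norm_num)]; ring
      rw [← this]
      exact Real.exp_le_exp.2 hs.2
    obtain ⟨ζ, hζ, hζr, hζJ⟩ := hpt r ⟨hr1, hr2⟩
    refine ⟨ζ.arg, Complex.abs_arg_lt_pi_div_two_iff.2 (Or.inl hζ), ?_⟩
    have e1 : exp ((s:ℂ) + ζ.arg * I) = ζ := by
      rw [Complex.exp_add, ← Complex.ofReal_exp, ← hr, ← hζr]
      exact Complex.norm_mul_exp_arg_mul_I ζ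
    have e2 : exp (s:ℂ) = ((r : ℝ) : ℂ) := by rw [← Complex.ofReal_exp]
    have h3 : L - Real.log 2 ≤ (G ((s:ℂ) + ζ.arg * I)).re := by
      simp only [hG]
      rw [e1, Complex.log_re]
      have h4 := le_norm_mob hr₁0 hR'0 (hm ζ hζ) hζJ
      have h5 := Real.log_le_log (by positivity) h4
      have h6 : Real.log (R' / (2 * r₁)) = L - Real.log 2 := by
        rw [hL, Real.log_div hR'0.ne' (by positivity), Real.log_div hR'0.ne' hr₁0.ne',
          Real.log_mul (by norm_num) hr₁0.ne']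
        ring
      rwa [h6] at h5
    have h4 : (G (s:ℂ)).re ≤ Real.log 2 := by
      simp only [hG]
      rw [e2, Complex.log_re]
      have hrp : 0 < r := Real.exp_pos s
      have h5 : 0 < (J (r:ℂ)).re := hm _ (by simpa using hrp)
      have h6 : ‖J (r:ℂ)‖ ≤ r₁ := by
        have := hx r (hR.trans hr1)
        nlinarith
      have h7 := norm_mob_le_two hr₁0 hR'0 h5 h6
      have h8 := one_le_norm_mob hr₁0 hlt.le h5
      exact Real.log_le_log (by linarith) h7
    calc L - 2 * Real.log 2 ≤ (G ((s:ℂ) + ζ.arg * I) - G s).re := by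
          rw [sub_re]; linarith
      _ ≤ ‖G ((s:ℂ) + ζ.arg * I) - G s‖ := Complex.re_le_norm _

end Q73.Semi
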