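import Mathlib

/-!
# Speeds of non-elliptic semigroups of the disc: definitions
-/

set_option autoImplicit false

open Set Filter Topology

namespace Q73.Semi

/-- The open unit disc. -/
def Disc : Set ℂ := {z | ‖z‖ < 1}

/-- `T_z(w) = (z - w) / (1 - conj z * w)`. -/
noncomputable def T (z w : ℂ) : ℂ := (z - w) / (1 - (starRingEnd ℂ) z * w)

/-- The hyperbolic distance of the disc,
`k(z, w) = 1/2 log ((1 + |T_z(w)|) / (1 - |T_z(w)|))`. -/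
noncomputable def hdist (z w : ℂ) : ℝ := 1 / 2 * Real.log ((1 + ‖T z w‖) / (1 - ‖T z w‖))

/-- A continuous semigroup `(φ_t)_{t ≥ 0}` of holomorphic self-maps of the disc:
`φ_0 = id`, `φ_{t+s} = φ_t ∘ φ_s`, and `t ↦ φ_t` is continuous for locally uniform convergence. -/
structure IsSemigroup (φ : ℝ → ℂ → ℂ) : Prop where
  mapsTo : ∀ t, 0 ≤ t → MapsTo (φ t) Disc Disc
  holomorphic : ∀ t, 0 ≤ t → DifferentiableOn ℂ (φ t) Disc
  zero : ∀ z ∈ Disc, φ 0 z = z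
  add : ∀ t s, 0 ≤ t → 0 ≤ s → ∀ z ∈ Disc, φ (t + s) z = φ t (φ s z)
  continuous : ∀ t₀, 0 ≤ t₀ → ∀ K ⊆ Disc, IsCompact K →
    TendstoUniformlyOn φ (φ t₀) (𝓝[Ici 0] t₀) K

/-- The semigroup is non-elliptic: the maps have no common fixed point in the disc. -/
def IsNonElliptic (φ : ℝ → ℂ → ℂ) : Prop := ∀ z ∈ Disc, ∃ t : ℝ, 0 ≤ t ∧ φ t z ≠ z

/-- `τ ∈ ∂𝔻` is the Denjoy-Wolff point: `φ_t(z) → τ` as `t → ∞` for every `z` in the disc. -/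
def IsDenjoyWolff (φ : ℝ → ℂ → ℂ) (τ : ℂ) : Prop :=
  ‖τ‖ = 1 ∧ ∀ z ∈ Disc, Tendsto (fun t => φ t z) atTop (𝓝 τ)

/-- `p` is a point of the diameter `(-1, 1) τ` at minimal hyperbolic distance from `z`. -/
def IsProjection (τ z p : ℂ) : Prop :=
  (∃ r ∈ Ioo (-1 : ℝ) 1, p = r * τ) ∧ ∀ r ∈ Ioo (-1 : ℝ) 1, hdist p z ≤ hdist (r * τ) z

/-- The hyperbolic orthogonal projection `π(z)` onto the diameter `(-1, 1) τ`. -/
noncomputable def proj (τ z : ℂ) : ℂ := Classical.epsilon (IsProjection τ z)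

/-- The orthogonal speed `v^o(t) = k(0, π(φ_t(0)))`. -/
noncomputable def orthogonalSpeed (φ : ℝ → ℂ → ℂ) (τ : ℂ) (t : ℝ) : ℝ :=
  hdist 0 (proj τ (φ t 0))

/-- The tangential speed `v^T(t) = k(φ_t(0), π(φ_t(0)))`. -/
noncomputable def tangentialSpeed (φ : ℝ → ℂ → ℂ) (τ : ℂ) (t : ℝ) : ℝ :=
  hdist (φ t 0) (proj τ (φ t 0))

end Q73.Semi
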