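import Pool.Agent.Q73.Semi.Tang
import Pool.Agent.Q73.Semi.Compare
import Pool.Agent.Helper202.Univ
import Pool.Agent.Helper203.NSBase

/-!
# Essential monotonicity of the orthogonal speed
-/

set_option autoImplicit false

open Complex Metric MeasureTheory Set Filter Topology

namespace Q73.Semi

variable {F E : ℝ → ℂ → ℂ}

lemma cay_icay {ζ : ℂ} (hζ : 0 < ζ.re) : cay (icay ζ) = ζ := by
  have h := add_one_ne hζ
  have h1 : 1 - icay ζ = 2 / (ζ + 1) := by unfold icay; field_simp; ring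
  have h2 : 1 + icay ζ = 2 * ζ / (ζ + 1) := by unfold icay; field_simp; ring
  unfold cay
  rw [h1, h2]
  field_simp

/-- the pseudo-hyperbolic distance controls the ratio of the moduli in the half plane -/
lemma cay_ratio {a b : ℂ} (ha : ‖a‖ < 1) (hb : ‖b‖ < 1) {q : ℝ}
    (h : ‖a - b‖ ≤ q * ‖1 - (starRingEnd ℂ) b * a‖) :
    ‖cay a‖ * (1 - q) ≤ ‖cay b‖ * (1 + q) := by
  have h1 := one_sub_ne ha
  have h2 := one_sub_ne hb
  have h3 : 1 - (starRingEnd ℂ) b ≠ 0 := one_sub_ne (by rwa [Complex.norm_conj])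
  have e1 : cay a - cay b = 2 * (a - b) / ((1 - a) * (1 - b)) := by
    unfold cay; field_simp; ring
  have e2 : cay a + (starRingEnd ℂ) (cay b) =
      2 * (1 - (starRingEnd ℂ) b * a) / ((1 - a) * (1 - (starRingEnd ℂ) b)) := by
    unfold cay
    simp only [map_div₀, map_add, map_sub, map_one]
    field_simp
    ring
  have h4 : ‖cay a - cay b‖ ≤ q * ‖cay a + (starRingEnd ℂ) (cay b)‖ := by
    rw [e1, e2]
    simp only [norm_div, norm_mul]
    have e3 : ‖1 - (starRingEnd ℂ) b‖ = ‖1 - b‖ := by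
      rw [← Complex.norm_conj (1 - b)]; simp
    rw [e3]
    have h5 : 0 < ‖1 - a‖ * ‖1 - b‖ :=
      mul_pos (norm_pos_iff.2 h1) (norm_pos_iff.2 h2)
    rw [mul_div_assoc', div_le_div_iff_of_pos_right h5]
    calc ‖(2:ℂ)‖ * ‖a - b‖ ≤ ‖(2:ℂ)‖ * (q * ‖1 - (starRingEnd ℂ) b * a‖) := by gcongr
      _ = q * (‖(2:ℂ)‖ * ‖1 - (starRingEnd ℂ) b * a‖) := by ring
  have hq : 0 ≤ q := by
    by_contra hcon
    have h6 : 0 < ‖1 - (starRingEnd ℂ) b * a‖ :=
      norm_pos_iff.2 (Pool.Agent.Helper203.NS.one_sub_ne hb ha)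
    have : q * ‖1 - (starRingEnd ℂ) b * a‖ < 0 := mul_neg_of_neg_of_pos (not_le.1 hcon) h6
    have := norm_nonneg (a - b)
    linarith
  have h5 : ‖cay a‖ - ‖cay b‖ ≤ ‖cay a - cay b‖ := norm_sub_norm_le _ _
  have h6 : ‖cay a + (starRingEnd ℂ) (cay b)‖ ≤ ‖cay a‖ + ‖cay b‖ := by
    calc _ ≤ ‖cay a‖ + ‖(starRingEnd ℂ) (cay b)‖ := norm_add_le _ _
      _ = _ := by rw [Complex.norm_conj]
  nlinarith

/-- the orbit tends to infinity in the half plane -/
lemma IsDW.orb_tendsto (hF : IsDW F) : Tendsto (fun t => ‖orb F t‖) atTop atTop := by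
  have h1 : Tendsto (fun t => 1 + F t 0) atTop (𝓝 (1 + 1)) := hF.tends.const_add 1
  have h2 : Tendsto (fun t => 1 - F t 0) atTop (𝓝 (1 - 1)) := hF.tends.const_sub 1
  have h3 : Tendsto (fun t => ‖1 + F t 0‖) atTop (𝓝 2) := by
    have := h1.norm
    norm_num at this
    exact this
  have h4 : Tendsto (fun t => ‖1 - F t 0‖) atTop (𝓝[>] 0) := by
    rw [tendsto_nhdsWithin_iff]
    constructor
    · have := h2.norm
      simpa using this
    · filter_upwards [eventually_ge_atTop (0:ℝ)] with t ht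
      exact norm_pos_iff.2 (one_sub_ne (hF.norm_lt ht (by simp)))
  have h5 : Tendsto (fun t => ‖1 - F t 0‖⁻¹) atTop atTop := tendsto_inv_nhdsGT_zero.comp h4
  have h6 := h5.atTop_mul_pos (by norm_num : (0:ℝ) < 2) h3
  refine h6.congr ?_
  intro t
  unfold orb cay
  rw [norm_div]
  field_simp

/-- **Essential monotonicity** in half plane coordinates. -/
theorem IsDW.essential (hF : IsDW F) (hE : IsDW E) {k : ℂ → ℂ}
    (hk : DifferentiableOn ℂ k (ball 0 1)) (hki : InjOn k (ball 0 1))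
    (hkm : MapsTo k (ball 0 1) (ball 0 1))
    (hkF : ∀ t, 0 ≤ t → ∀ w ∈ ball (0:ℂ) 1, k (F t w) = E t (k w)) :
    ∃ C : ℝ, 0 < C ∧ ∀ t, 0 ≤ t → ‖orb E t‖ ≤ C * ‖orb F t‖ := by
  have hkn : ∀ w : ℂ, ‖w‖ < 1 → ‖k w‖ < 1 := fun w hw => by
    simpa using hkm (by simpa using hw)
  have h00 : ‖(0:ℂ)‖ < 1 := by simp
  set q := ‖k 0‖ with hq
  have hq1 : q < 1 := hkn 0 h00
  have hq0 : 0 ≤ q := norm_nonneg _
  set c₀ := (1 - q) / (1 + q) with hc₀
  have hc₀pos : 0 < c₀ := div_pos (by linarith) (by linarith)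
  -- change of base point
  have hbase : ∀ s, 0 ≤ s → c₀ * ‖orb E s‖ ≤ ‖cay (k (F s 0))‖ := by
    intro s hs
    have h1 := Pool.Agent.Helper203.NS.schwarz_pick (hE.flow.holo s hs) (hE.flow.mapsTo s hs)
      (z := 0) (w := k 0) h00 (hkn 0 h00)
    simp only [mul_zero, sub_zero, norm_one, mul_one, zero_sub, norm_neg] at h1
    have h2 := cay_ratio (hE.norm_lt hs h00) (hE.norm_lt hs (hkn 0 h00)) h1
    rw [hkF s hs 0 (by simp)]
    have h3 : orb E s = cay (E s 0) := rfl
    rw [h3, hc₀, div_mul_eq_mul_div, div_le_iff₀ (by linarith)]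
    linarith
  -- the map of the half plane
  set J : ℂ → ℂ := fun ζ => cay (k (icay ζ)) with hJ
  have hJd : DifferentiableOn ℂ J {z | 0 < z.re} := by
    intro z hz
    have hz' : 0 < z.re := hz
    have h1 := norm_icay_lt hz'
    have h2 : DifferentiableAt ℂ k (icay z) :=
      hk.differentiableAt (isOpen_ball.mem_nhds (by simpa using h1))
    have h3 : DifferentiableAt ℂ (fun ζ => k (icay ζ)) z :=
      DifferentiableAt.comp (f := icay) (g := k) z h2 (hasDerivAt_icay hz').differentiableAt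
    have h4 : DifferentiableAt ℂ cay (k (icay z)) :=
      (hasDerivAt_cay (one_sub_ne (hkn _ h1))).differentiableAt
    exact (DifferentiableAt.comp (f := fun ζ => k (icay ζ)) (g := cay) z h4
      h3).differentiableWithinAt
  have hJi : InjOn J {z | 0 < z.re} := by
    intro z hz z' hz' h
    have hz0 : 0 < z.re := hz
    have hz0' : 0 < z'.re := hz'
    have h1 := norm_icay_lt hz0
    have h2 := norm_icay_lt hz0'
    have h3 := congrArg icay h
    simp only [hJ] at h3
    rw [icay_cay (hkn _ h1), icay_cay (hkn _ h2)] at h3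
    have h4 := hki (by simpa using h1) (by simpa using h2) h3
    have h5 := congrArg cay h4
    rwa [cay_icay hz0, cay_icay hz0'] at h5
  have hJm : ∀ z : ℂ, 0 < z.re → 0 < (J z).re := fun z hz =>
    cay_re_pos (hkn _ (norm_icay_lt hz))
  set K := ‖cay (k 0)‖ with hK
  have hKpos : 0 < K := by
    apply norm_pos_iff.2
    intro h
    have := cay_re_pos (hkn 0 h00)
    rw [h] at this
    simp at this
  have hx : ∀ x : ℝ, 1 ≤ x → ‖J x‖ ≤ K * x := by
    intro x hx
    have hx0 : 0 < (x:ℂ).re := by simpa using (by linarith : 0 < x)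
    have h1 := norm_icay_lt hx0
    have h2 : ‖icay x‖ = (x - 1) / (x + 1) := by
      have : icay (x:ℂ) = (((x - 1) / (x + 1) : ℝ) : ℂ) := by unfold icay; push_cast; rfl
      rw [this, Complex.norm_real, Real.norm_eq_abs, abs_of_nonneg]
      exact div_nonneg (by linarith) (by linarith)
    have h3 := Pool.Agent.Helper203.NS.schwarz_pick hk hkm (z := icay x) (w := 0) h1 h00
    simp only [map_zero, zero_mul, sub_zero, norm_one, mul_one] at h3
    have h4 := cay_ratio (hkn _ h1) (hkn 0 h00) h3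
    rw [h2] at h4
    have h5 : 1 - (x - 1) / (x + 1) = 2 / (x + 1) := by field_simp; ring
    have h6 : 1 + (x - 1) / (x + 1) = 2 * x / (x + 1) := by field_simp; ring
    rw [h5, h6, mul_div_assoc', mul_div_assoc', div_le_div_iff_of_pos_right (by linarith)] at h4
    show ‖cay (k (icay x))‖ ≤ K * x
    linarith
  have hCpos : 0 < cmpC := Real.exp_pos _
  refine ⟨cmpC * (2 * K) / c₀, by positivity, fun t ht => ?_⟩
  set R := ‖orb F t‖ with hR
  have hR1 : 1 ≤ R := by
    have := hF.norm_orb_mono le_rfl ht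
    rwa [hF.orb_zero, norm_one] at this
  have hpt : ∀ r ∈ Icc R (2 * R), ∃ ζ : ℂ, 0 < ζ.re ∧ ‖ζ‖ = r ∧ c₀ * ‖orb E t‖ ≤ ‖J ζ‖ := by
    intro r hr
    obtain ⟨T, hT1, hT2⟩ :=
      ((hF.orb_tendsto.eventually_ge_atTop r).and (eventually_ge_atTop t)).exists
    have hcont : ContinuousOn (fun s => ‖orb F s‖) (Icc t T) :=
      hF.orb_continuousOn.norm.mono (fun s hs => ht.trans hs.1)
    obtain ⟨s, hs, hse⟩ := intermediate_value_Icc hT2 hcont ⟨hr.1, hT1⟩
    have hs0 : 0 ≤ s := ht.trans hs.1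
    have h1 := hF.one_le_orb_re hs0
    refine ⟨orb F s, by linarith, hse, ?_⟩
    have h2 : J (orb F s) = cay (k (F s 0)) := by
      show cay (k (icay (cay (F s 0)))) = _
      rw [icay_cay (hF.norm_lt hs0 h00)]
    rw [h2]
    refine le_trans ?_ (hbase s hs0)
    exact mul_le_mul_of_nonneg_left (hE.norm_orb_mono ht hs.1) hc₀pos.le
  have h1 := half_plane_bound hJd hJi hJm hKpos hR1 hx hpt
  rw [div_mul_eq_mul_div, le_div_iff₀ hc₀pos]
  linarith

end Q73.Semi
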