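import Mathlib

/-!
# The infinitesimal generator of a continuous semigroup of holomorphic self-maps
-/

set_option autoImplicit false

open Metric MeasureTheory Set Filter Topology

namespace Q73.Semi

/-- A continuous one-parameter semigroup of holomorphic self-maps of `U`. -/
structure IsFlow (U : Set ℂ) (F : ℝ → ℂ → ℂ) : Prop where
  mapsTo : ∀ t, 0 ≤ t → MapsTo (F t) U U
  holo : ∀ t, 0 ≤ t → DifferentiableOn ℂ (F t) U
  zero : ∀ z ∈ U, F 0 z = z
  add : ∀ t s, 0 ≤ t → 0 ≤ s → ∀ z ∈ U, F (t + s) z = F t (F s z)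
  cont : ∀ t₀, 0 ≤ t₀ → ∀ K ⊆ U, IsCompact K → TendstoUniformlyOn F (F t₀) (𝓝[Ici 0] t₀) K

variable {U : Set ℂ} {F : ℝ → ℂ → ℂ}

lemma IsFlow.joint (hF : IsFlow U F) (hU : IsOpen U) :
    ContinuousOn (fun p : ℝ × ℂ => F p.1 p.2) (Ici 0 ×ˢ U) := by
  rintro ⟨t₀, z₀⟩ ⟨ht, hz⟩
  simp only [mem_Ici] at ht
  obtain ⟨ρ, hρ, hball⟩ := Metric.nhds_basis_closedBall.mem_iff.1 (hU.mem_nhds hz)
  rw [ContinuousWithinAt, Metric.tendsto_nhds]
  intro ε hε
  have h1 : ∀ᶠ t in 𝓝[Ici 0] t₀, ∀ z ∈ closedBall z₀ ρ, dist (F t₀ z) (F t z) < ε / 2 :=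
    Metric.tendstoUniformlyOn_iff.1 (hF.cont t₀ ht _ hball (isCompact_closedBall _ _)) _
      (by positivity)
  have h2 : ∀ᶠ z in 𝓝 z₀, dist (F t₀ z) (F t₀ z₀) < ε / 2 := by
    have hc : ContinuousAt (F t₀) z₀ :=
      ((hF.holo t₀ ht).continuousOn).continuousAt (hU.mem_nhds hz)
    exact Metric.tendsto_nhds.1 hc _ (by positivity)
  have h3 : ∀ᶠ z in 𝓝 z₀, z ∈ closedBall z₀ ρ := closedBall_mem_nhds z₀ hρ
  rw [nhdsWithin_prod_eq]
  filter_upwards [h1.prod_mk (nhdsWithin_le_nhds (h2.and h3))] with p hp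
  have h4 := hp.1 p.2 hp.2.2
  have h5 := hp.2.1
  calc dist (F p.1 p.2) (F t₀ z₀) ≤ dist (F p.1 p.2) (F t₀ p.2) + dist (F t₀ p.2) (F t₀ z₀) :=
        dist_triangle _ _ _
    _ < ε := by rw [dist_comm (F p.1 p.2)]; linarith

/-- the orbit, extended by a constant to negative times -/
lemma IsFlow.continuous_orbit (hF : IsFlow U F) (hU : IsOpen U) {z : ℂ} (hz : z ∈ U) :
    Continuous (fun t : ℝ => F (max t 0) z) := by
  have h : Continuous fun t : ℝ => ((max t 0, z) : ℝ × ℂ) := by fun_prop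
  exact (hF.joint hU).comp_continuous h (fun t => ⟨mem_Ici.2 (le_max_right _ _), hz⟩)

lemma IsFlow.continuousOn_orbit (hF : IsFlow U F) (hU : IsOpen U) {z : ℂ} (hz : z ∈ U) :
    ContinuousOn (fun t : ℝ => F t z) (Ici 0) := by
  apply (hF.continuous_orbit hU hz).continuousOn.congr
  intro t ht
  simp only [max_eq_left (mem_Ici.1 ht)]

lemma IsFlow.continuousWithinAt_deriv (hF : IsFlow U F) (hU : IsOpen U) {z : ℂ} (hz : z ∈ U)
    {t₀ : ℝ} (ht : 0 ≤ t₀) : ContinuousWithinAt (fun t => deriv (F t) z) (Ici 0) t₀ := by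
  have h1 : TendstoLocallyUniformlyOn F (F t₀) (𝓝[Ici 0] t₀) U := by
    rw [tendstoLocallyUniformlyOn_iff_forall_isCompact hU]
    intro K hK hKc
    exact hF.cont t₀ ht K hK hKc
  have h2 : ∀ᶠ t in 𝓝[Ici 0] t₀, DifferentiableOn ℂ (F t) U := by
    filter_upwards [self_mem_nhdsWithin] with t ht' using hF.holo t ht'
  have h3 := h1.deriv h2 hU
  exact h3.tendsto_at hz

/-- the average `A(z) = ∫₀^δ F_s(z) ds` -/
noncomputable def avg (F : ℝ → ℂ → ℂ) (δ : ℝ) (z : ℂ) : ℂ := ∫ s in (0:ℝ)..δ, F s z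

lemma IsFlow.hasDerivAt_avg (hF : IsFlow U F) (hU : IsOpen U) {δ : ℝ} (hδ : 0 ≤ δ) {z : ℂ}
    (hz : z ∈ U) : HasDerivAt (avg F δ) (∫ s in (0:ℝ)..δ, deriv (F s) z) z := by
  obtain ⟨ρ, hρ, hball⟩ : ∃ ρ > 0, closedBall z (2 * ρ) ⊆ U := by
    obtain ⟨ρ, hρ, hball⟩ := Metric.nhds_basis_closedBall.mem_iff.1 (hU.mem_nhds hz)
    exact ⟨ρ / 2, by positivity, by rwa [mul_div_cancel₀ ρ two_ne_zero]⟩
  have hjc := hF.joint hU
  -- bound on the compact set
  obtain ⟨M, hM⟩ : ∃ M, ∀ p ∈ Icc (0:ℝ) δ ×ˢ closedBall z (2 * ρ), ‖F p.1 p.2‖ ≤ M :=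
    (isCompact_Icc.prod (isCompact_closedBall _ _)).exists_bound_of_continuousOn
      (hjc.mono (prod_mono Icc_subset_Ici_self hball))
  have hxU : ∀ x ∈ ball z ρ, x ∈ U := fun x hx => hball (by
    rw [mem_ball] at hx; rw [mem_closedBall]; linarith)
  have hI : uIoc (0:ℝ) δ = Ioc 0 δ := uIoc_of_le hδ
  have hct : ∀ x ∈ U, ContinuousOn (fun s => F s x) (Icc 0 δ) := fun x hx =>
    (hF.continuousOn_orbit hU hx).mono Icc_subset_Ici_self
  have := intervalIntegral.hasDerivAt_integral_of_dominated_loc_of_deriv_le (μ := volume)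
    (F := fun x s => F s x) (F' := fun x s => deriv (F s) x) (x₀ := z) (a := 0) (b := δ)
    (bound := fun _ => M / ρ) (ball_mem_nhds z hρ) ?_ ?_ ?_ ?_ ?_ ?_
  · exact this.2
  · filter_upwards [hU.mem_nhds hz] with x hx
    rw [hI]
    exact ((hct x hx).mono Ioc_subset_Icc_self).aestronglyMeasurable measurableSet_Ioc
  · apply ContinuousOn.intervalIntegrable
    rw [uIcc_of_le hδ]
    exact hct z hz
  · rw [hI]
    apply ContinuousOn.aestronglyMeasurable _ measurableSet_Ioc
    intro s hs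
    exact (hF.continuousWithinAt_deriv hU hz hs.1.le).mono
      (Ioc_subset_Icc_self.trans Icc_subset_Ici_self)
  · apply Filter.Eventually.of_forall
    intro s hs x hx
    rw [hI] at hs
    apply Complex.norm_deriv_le_of_forall_mem_sphere_norm_le hρ
    · apply DifferentiableOn.diffContOnCl
      rw [closure_ball x hρ.ne']
      apply (hF.holo s hs.1.le).mono
      intro y hy
      apply hball
      rw [mem_closedBall] at hy ⊢
      rw [mem_ball] at hx
      calc dist y z ≤ dist y x + dist x z := dist_triangle _ _ _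
        _ ≤ 2 * ρ := by linarith
    · intro y hy
      apply hM (s, y)
      refine ⟨Ioc_subset_Icc_self hs, ?_⟩
      rw [mem_sphere] at hy
      rw [mem_closedBall]
      rw [mem_ball] at hx
      calc dist y z ≤ dist y x + dist x z := dist_triangle _ _ _
        _ ≤ 2 * ρ := by linarith
  · exact intervalIntegrable_const
  · apply Filter.Eventually.of_forall
    intro s hs x hx
    rw [hI] at hs
    exact (((hF.holo s hs.1.le).differentiableAt (hU.mem_nhds (hxU x hx)))).hasDerivAt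

lemma IsFlow.differentiableOn_avg (hF : IsFlow U F) (hU : IsOpen U) {δ : ℝ} (hδ : 0 ≤ δ) :
    DifferentiableOn ℂ (avg F δ) U := fun _ hz =>
  (hF.hasDerivAt_avg hU hδ hz).differentiableAt.differentiableWithinAt

/-- the derivative of the average is nonzero for small `δ` -/
lemma IsFlow.exists_deriv_avg_ne (hF : IsFlow U F) (hU : IsOpen U) {z : ℂ} (hz : z ∈ U) :
    ∃ δ > 0, deriv (avg F δ) z ≠ 0 := by
  have h0 : deriv (F 0) z = 1 := by
    have : F 0 =ᶠ[𝓝 z] id := by
      filter_upwards [hU.mem_nhds hz] with x hx using hF.zero x hx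
    rw [this.deriv_eq, deriv_id]
  have hc := hF.continuousWithinAt_deriv hU hz le_rfl
  rw [ContinuousWithinAt, Metric.tendsto_nhdsWithin_nhds] at hc
  obtain ⟨δ, hδ, h⟩ := hc (1 / 2) (by norm_num)
  refine ⟨δ / 2, by positivity, ?_⟩
  rw [(hF.hasDerivAt_avg hU (by positivity) hz).deriv]
  have hb : ‖(∫ s in (0:ℝ)..δ / 2, deriv (F s) z) - ∫ s in (0:ℝ)..δ / 2, (1:ℂ)‖ ≤
      1 / 2 * |δ / 2 - 0| := by
    rw [← intervalIntegral.integral_sub]
    · apply intervalIntegral.norm_integral_le_of_norm_le_const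
      intro s hs
      rw [uIoc_of_le (by positivity)] at hs
      have := h (x := s) (mem_Ici.2 hs.1.le) (by
        rw [Real.dist_eq, sub_zero, abs_of_pos hs.1]; linarith [hs.2])
      rw [h0, dist_eq_norm] at this
      exact this.le
    · apply ContinuousOn.intervalIntegrable
      intro s hs
      rw [uIcc_of_le (by positivity)] at hs
      exact (hF.continuousWithinAt_deriv hU hz hs.1).mono (by
        rw [uIcc_of_le (by positivity)]; exact Icc_subset_Ici_self)
    · exact intervalIntegrable_const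
  intro hcon
  rw [hcon] at hb
  simp only [intervalIntegral.integral_const, sub_zero, zero_sub, norm_neg, norm_smul,
    Real.norm_eq_abs, norm_one, mul_one] at hb
  have : 0 < |δ / 2| := abs_pos.2 (by positivity)
  linarith

/-- the right derivative at `0` -/
lemma IsFlow.hasDerivWithinAt_zero (hF : IsFlow U F) (hU : IsOpen U) {z : ℂ} (hz : z ∈ U)
    {δ : ℝ} (hδ : 0 < δ) (hne : deriv (avg F δ) z ≠ 0) :
    HasDerivWithinAt (fun t => F t z) ((F δ z - z) / deriv (avg F δ) z) (Ici 0) 0 := by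
  set f : ℝ → ℂ := fun t => F (max t 0) z with hf
  have hfc : Continuous f := hF.continuous_orbit hU hz
  set H : ℝ → ℂ := fun t => ∫ s in (0:ℝ)..t, f s with hH
  have hHd : ∀ t, HasDerivAt H (f t) t := fun t =>
    intervalIntegral.integral_hasDerivAt_right (hfc.intervalIntegrable _ _)
      hfc.stronglyMeasurable.stronglyMeasurableAtFilter hfc.continuousAt
  have hA : ∀ t, 0 ≤ t → avg F δ (F t z) = H (t + δ) - H t := by
    intro t ht
    have e1 : avg F δ (F t z) = ∫ s in (0:ℝ)..δ, f (s + t) := by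
      unfold avg
      apply intervalIntegral.integral_congr
      intro s hs
      rw [uIcc_of_le hδ.le] at hs
      simp only [hf]
      rw [max_eq_left (by linarith [hs.1]), hF.add s t hs.1 ht z hz]
    rw [e1, intervalIntegral.integral_comp_add_right (fun s => f s), zero_add, add_comm δ t]
    have := intervalIntegral.integral_add_adjacent_intervals (μ := volume) (a := 0) (b := t)
      (c := t + δ) (hfc.intervalIntegrable _ _) (hfc.intervalIntegrable _ _)
    simp only [hH]
    rw [← this]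
    ring
  -- derivative of `A ∘ g`
  have h1 : HasDerivWithinAt (fun t => avg F δ (F t z)) (F δ z - z) (Ici 0) 0 := by
    have h2 : HasDerivAt (fun t => H (t + δ) - H t) (f (0 + δ) - f 0) 0 := by
      have h3 : HasDerivAt (fun t => H (t + δ)) (f (0 + δ)) 0 :=
        (hHd (0 + δ)).comp_add_const 0 δ
      exact h3.sub (hHd 0)
    have e : f (0 + δ) - f 0 = F δ z - z := by
      simp only [hf]
      rw [zero_add, max_eq_left hδ.le, max_self, hF.zero z hz]
    rw [e] at h2
    apply h2.hasDerivWithinAt.congr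
    · intro t ht; exact hA t ht
    · exact hA 0 le_rfl
  -- local inverse of `A`
  have hAn : AnalyticAt ℂ (avg F δ) z :=
    (hF.differentiableOn_avg hU hδ.le).analyticAt (hU.mem_nhds hz)
  have hst : HasStrictDerivAt (avg F δ) (deriv (avg F δ) z) z := hAn.hasStrictDerivAt
  have hinv := hst.to_localInverse hne
  have hleft := hst.eventually_left_inverse hne
  have hg0 : F 0 z = z := hF.zero z hz
  have hgc : Tendsto (fun t => F t z) (𝓝[Ici 0] 0) (𝓝 z) := by
    have := (hF.continuousOn_orbit hU hz) 0 self_mem_Ici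
    rw [ContinuousWithinAt, hg0] at this
    exact this
  have h4 : HasDerivWithinAt (fun t => hst.localInverse (avg F δ) (deriv (avg F δ) z) z hne
      (avg F δ (F t z))) ((deriv (avg F δ) z)⁻¹ * (F δ z - z)) (Ici 0) 0 := by
    have h5 : HasDerivAt (hst.localInverse (avg F δ) (deriv (avg F δ) z) z hne)
        (deriv (avg F δ) z)⁻¹ (avg F δ (F 0 z)) := by
      rw [hg0]; exact hinv.hasDerivAt
    exact h5.comp_hasDerivWithinAt (0:ℝ) h1
  have h6 : (F δ z - z) / deriv (avg F δ) z = (deriv (avg F δ) z)⁻¹ * (F δ z - z) := by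
    rw [div_eq_inv_mul]
  rw [h6]
  apply h4.congr_of_eventuallyEq
  · filter_upwards [hgc.eventually hleft] with t ht
    exact ht.symm
  · rw [hg0]; exact (hleft.self_of_nhds).symm

/-- **The infinitesimal generator.** -/
theorem IsFlow.generator (hF : IsFlow U F) (hU : IsOpen U) :
    ∃ G : ℂ → ℂ, DifferentiableOn ℂ G U ∧
      ∀ z ∈ U, ∀ t : ℝ, 0 ≤ t → HasDerivWithinAt (fun t => F t z) (G (F t z)) (Ici t) t := by
  set G : ℂ → ℂ := fun z => derivWithin (fun t : ℝ => F t z) (Ici 0) 0 with hG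
  have huniq : UniqueDiffWithinAt ℝ (Ici (0:ℝ)) 0 := uniqueDiffOn_Ici 0 0 self_mem_Ici
  have h0 : ∀ z ∈ U, ∀ δ > 0, deriv (avg F δ) z ≠ 0 →
      G z = (F δ z - z) / deriv (avg F δ) z := fun z hz δ hδ hne =>
    (hF.hasDerivWithinAt_zero hU hz hδ hne).derivWithin huniq
  have hd0 : ∀ z ∈ U, HasDerivWithinAt (fun t => F t z) (G z) (Ici 0) 0 := by
    intro z hz
    obtain ⟨δ, hδ, hne⟩ := hF.exists_deriv_avg_ne hU hz
    rw [h0 z hz δ hδ hne]
    exact hF.hasDerivWithinAt_zero hU hz hδ hne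
  refine ⟨G, ?_, ?_⟩
  · intro z hz
    obtain ⟨δ, hδ, hne⟩ := hF.exists_deriv_avg_ne hU hz
    have hAn : AnalyticAt ℂ (avg F δ) z :=
      (hF.differentiableOn_avg hU hδ.le).analyticAt (hU.mem_nhds hz)
    have hdc : ContinuousAt (deriv (avg F δ)) z := hAn.deriv.continuousAt
    have hev : ∀ᶠ x in 𝓝 z, deriv (avg F δ) x ≠ 0 := hdc.eventually_ne hne
    have heq : G =ᶠ[𝓝 z] fun x => (F δ x - x) / deriv (avg F δ) x := by
      filter_upwards [hev, hU.mem_nhds hz] with x hx hxU using h0 x hxU δ hδ hx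
    have hdiff : DifferentiableAt ℂ (fun x => (F δ x - x) / deriv (avg F δ) x) z := by
      apply DifferentiableAt.div
      · exact ((hF.holo δ hδ.le).differentiableAt (hU.mem_nhds hz)).sub differentiableAt_id
      · exact hAn.deriv.differentiableAt
      · exact hne
    exact (hdiff.congr_of_eventuallyEq heq).differentiableWithinAt
  · intro z hz t ht
    have hzt : F t z ∈ U := hF.mapsTo t ht hz
    have h1 := hd0 _ hzt
    have h2 : HasDerivWithinAt (fun s : ℝ => F (s - t) (F t z)) (G (F t z)) (Ici t) t := by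
      have h3 : HasDerivWithinAt (fun s : ℝ => s - t) 1 (Ici t) t :=
        (hasDerivWithinAt_id t _).sub_const t
      have h4 : MapsTo (fun s : ℝ => s - t) (Ici t) (Ici 0) := fun s hs => by
        simp only [mem_Ici] at hs ⊢; linarith
      have h5 : HasDerivWithinAt (fun s => F s (F t z)) (G (F t z)) (Ici 0) (t - t) := by
        rw [sub_self]; exact h1
      have h6 := HasDerivWithinAt.scomp (g₁ := fun s => F s (F t z)) (h := fun s : ℝ => s - t)
        t h5 h3 h4
      simpa [Function.comp_def] using h6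
    apply h2.congr
    · intro s hs
      have := hF.add (s - t) t (by simp only [mem_Ici] at hs; linarith) ht z hz
      rw [sub_add_cancel] at this
      exact this
    · rw [sub_self, hF.zero _ hzt]

end Q73.Semi
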