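import Mathlib

/-!
# The Poisson integral of two boundary rays
-/

set_option autoImplicit false

open MeasureTheory Set Filter Topology Real

namespace Q73.Semi

lemma hasDerivAt_arctan_shift {x : ℝ} (hx : 0 < x) (v y : ℝ) :
    HasDerivAt (fun y => arctan ((y - v) / x)) (x / (x ^ 2 + (v - y) ^ 2)) y := by
  have h1 : HasDerivAt (fun y : ℝ => (y - v) / x) (1 / x) y :=
    ((hasDerivAt_id y).sub_const v).div_const x
  have h2 := h1.arctan
  refine h2.congr_deriv ?_
  have : 0 < x ^ 2 + (v - y) ^ 2 := by positivity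
  field_simp
  ring

lemma tendsto_arctan_shift {x : ℝ} (hx : 0 < x) (v : ℝ) :
    Tendsto (fun y => arctan ((y - v) / x)) atTop (𝓝 (π / 2)) := by
  have h1 : Tendsto (fun y : ℝ => (y - v) / x) atTop atTop :=
    (tendsto_atTop_add_const_right _ (-v) tendsto_id).atTop_div_const hx
  exact (tendsto_nhds_of_tendsto_nhdsWithin tendsto_arctan_atTop).comp h1

lemma tendsto_arctan_shift_bot {x : ℝ} (hx : 0 < x) (v : ℝ) :
    Tendsto (fun y => arctan ((y - v) / x)) atBot (𝓝 (-(π / 2))) := by
  have h1 : Tendsto (fun y : ℝ => (y - v) / x) atBot atBot :=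
    (tendsto_atBot_add_const_right _ (-v) tendsto_id).atBot_div_const hx
  exact (tendsto_nhds_of_tendsto_nhdsWithin tendsto_arctan_atBot).comp h1

lemma integrable_poisson {x : ℝ} (hx : 0 < x) (v : ℝ) :
    Integrable (fun y => x / (x ^ 2 + (v - y) ^ 2)) := by
  have h1 : Integrable (fun y : ℝ => (1 + (y / x) ^ 2)⁻¹) := integrable_inv_one_add_sq.comp_div hx.ne'
  have h2 := (h1.comp_sub_right v).const_mul (1 / x)
  refine h2.congr (Filter.Eventually.of_forall fun y => ?_)
  have : 0 < x ^ 2 + (v - y) ^ 2 := by positivity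
  have h3 : 0 < 1 + ((y - v) / x) ^ 2 := by positivity
  simp only
  field_simp
  ring

/-- The Poisson integral of the two rays `|y| ≥ R` at the point `x + iv`. -/
lemma integral_rays {x : ℝ} (hx : 0 < x) (v : ℝ) {R : ℝ} (hR : 0 < R) :
    ∫ y in {y : ℝ | R ≤ |y|}, x / (x ^ 2 + (v - y) ^ 2) =
      π - (arctan ((R - v) / x) + arctan ((R + v) / x)) := by
  have hi := integrable_poisson hx v
  have e : {y : ℝ | R ≤ |y|} = Iic (-R) ∪ Ici R := by
    ext y
    simp only [mem_ofPred_eq, le_abs, mem_union, mem_Iic, mem_Ici]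
    constructor
    · rintro (h | h)
      · right; exact h
      · left; linarith
    · rintro (h | h)
      · right; linarith
      · left; exact h
  have hdisj : Disjoint (Iic (-R)) (Ici R) := by
    rw [Set.disjoint_left]
    intro y h1 h2
    simp only [mem_Iic, mem_Ici] at h1 h2
    linarith
  rw [e, setIntegral_union hdisj measurableSet_Ici hi.integrableOn hi.integrableOn,
    integral_Ici_eq_integral_Ioi,
    integral_Iic_of_hasDerivAt_of_tendsto' (fun y _ => hasDerivAt_arctan_shift hx v y)
      hi.integrableOn (tendsto_arctan_shift_bot hx v),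
    integral_Ioi_of_hasDerivAt_of_tendsto' (fun y _ => hasDerivAt_arctan_shift hx v y)
      hi.integrableOn (tendsto_arctan_shift hx v)]
  have e2 : (-R - v) / x = -((R + v) / x) := by ring
  rw [e2, arctan_neg]
  ring

lemma arctan_sum_le {a b : ℝ} (h1 : 0 < a + b) (h2 : a * b ≤ 1) :
    arctan a + arctan b ≤ π / 2 := by
  rcases h2.eq_or_lt with h | h
  · have ha : 0 < a := by
      by_contra hcon
      rw [not_lt] at hcon
      have hb : 0 < b := by linarith
      have := mul_nonpos_of_nonpos_of_nonneg hcon hb.le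
      linarith
    have hb : b = a⁻¹ := by
      rw [eq_comm, inv_eq_iff_eq_inv, eq_comm]; exact inv_eq_of_mul_eq_one_left (by linarith)
    rw [hb, arctan_inv_of_pos ha]
    linarith
  · exact (arctan_add_arctan_lt_pi_div_two h).le

lemma arctan_sum_eq {a b : ℝ} (h1 : 0 < a + b) (h2 : a * b = 1) :
    arctan a + arctan b = π / 2 := by
  have ha : 0 < a := by
    by_contra hcon
    rw [not_lt] at hcon
    have hb : 0 < b := by linarith
    have := mul_nonpos_of_nonpos_of_nonneg hcon hb.le
    linarith
  have hb : b = a⁻¹ := by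
    rw [eq_comm, inv_eq_iff_eq_inv, eq_comm]; exact inv_eq_of_mul_eq_one_left (by linarith)
  rw [hb, arctan_inv_of_pos ha]
  ring

end Q73.Semi
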