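import Pool.Agent.Q73.Semi.Kernel

/-!
# Positivity of the functional on functions with nonnegative real part
-/

set_option autoImplicit false

open Complex Metric MeasureTheory Set Filter Topology

namespace Q73.Semi

lemma herglotz_eq_ker (w ζ : ℂ) : herglotzRieszKernel 0 w ζ = ker ζ w := by
  simp [herglotzRieszKernel_def, ker]

lemma sphere_norm {ζ : ℂ} (h : ζ ∈ sphere (0:ℂ) 1) : ‖ζ‖ = 1 := by simpa using h

lemma circleMap_norm (θ : ℝ) : ‖circleMap 0 1 θ‖ = 1 := by simp [norm_circleMap_zero]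

/-- Schwarz formula on the unit disc. -/
lemma schwarz {P : ℂ → ℂ} (hP : DiffContOnCl ℂ P (ball 0 1)) {w : ℂ} (hw : ‖w‖ < 1) :
    P w = I * ((P 0).im : ℂ) + Real.circleAverage (fun ζ => ker ζ w * ((P ζ).re : ℂ)) 0 1 := by
  set g : ℂ → ℝ := fun ζ => (P ζ).re with hg
  have hcl : closure (ball (0:ℂ) 1) = closedBall 0 1 := closure_ball (0:ℂ) one_ne_zero
  have hPc : ContinuousOn P (sphere 0 1) := by
    apply hP.continuousOn.mono
    rw [hcl]; exact sphere_subset_closedBall
  have hgi : CircleIntegrable g 0 1 := by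
    apply ContinuousOn.circleIntegrable zero_le_one
    exact Complex.continuous_re.comp_continuousOn hPc
  have hgi' : CircleIntegrable (fun ζ => (g ζ : ℂ)) 0 1 := by
    apply ContinuousOn.circleIntegrable zero_le_one
    exact Complex.continuous_ofReal.comp_continuousOn (Complex.continuous_re.comp_continuousOn hPc)
  set Q : ℂ → ℂ := fun w => Real.circleAverage (fun ζ => herglotzRieszKernel 0 w ζ • (g ζ : ℂ)) 0 1
    with hQ
  have hQa : AnalyticOnNhd ℂ Q (ball 0 1) :=
    analyticOnNhd_circleAverage_herglotzRieszKernel_smul hgi'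
  have hPa : AnalyticOnNhd ℂ P (ball 0 1) := hP.differentiableOn.analyticOnNhd isOpen_ball
  have hre : ∀ x ∈ ball (0:ℂ) 1, ((P - Q) x).re = 0 := by
    intro x hx
    have h1 : (Q x).re = Real.circleAverage ((Complex.re ∘ herglotzRieszKernel 0 x) • g) 0 1 :=
      re_circleAverage_herglotzRieszKernel_smul hgi hx
    have h2 : Real.circleAverage ((Complex.re ∘ herglotzRieszKernel 0 x) • P) 0 1 = P x :=
      hP.circleAverage_re_herglotzRieszKernel_smul hx
    have h3 : Real.circleAverage ((Complex.re ∘ herglotzRieszKernel 0 x) • g) 0 1 =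
        (Real.circleAverage ((Complex.re ∘ herglotzRieszKernel 0 x) • P) 0 1).re := by
      have hint : CircleIntegrable ((Complex.re ∘ herglotzRieszKernel 0 x) • P) 0 1 := by
        apply ContinuousOn.circleIntegrable zero_le_one
        apply ContinuousOn.smul _ hPc
        have h5 : ContinuousOn (herglotzRieszKernel 0 x) (sphere 0 |(1:ℝ)|) :=
          continuousOn_herglotzRieszKernel_sphere hx
        rw [abs_one] at h5
        exact Complex.continuous_re.comp_continuousOn h5
      have := Complex.reCLM.circleAverage_comp_comm hint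
      rw [Complex.reCLM_apply] at this
      rw [← this]
      congr 1
      funext ζ
      simp [hg]
    simp only [Pi.sub_apply, sub_re]
    rw [h1, h3, h2]
    ring
  obtain ⟨c, hc⟩ := AnalyticOnNhd.eq_const_of_re_eq_const (hPa.sub hQa) hre isOpen_ball
    ⟨⟨0, mem_ball_self one_pos⟩, (convex_ball (0:ℂ) 1).isPreconnected⟩
  have h0 : c = I * ((P 0).im : ℂ) := by
    have h1 := hc 0 (mem_ball_self one_pos)
    have h2 : (Q 0).im = 0 := by
      have e : Q 0 = ((Real.circleAverage g 0 1 : ℝ) : ℂ) := by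
        have e1 : Q 0 = Real.circleAverage (Complex.ofRealCLM ∘ g) 0 1 := by
          simp only [hQ]
          apply Real.circleAverage_congr_sphere
          intro ζ hζ
          rw [abs_one] at hζ
          have hζ1 : ζ ≠ 0 := by
            intro h
            have := sphere_norm hζ
            rw [h] at this
            simp at this
          simp [herglotzRieszKernel_def, hζ1]
        rw [e1, Complex.ofRealCLM.circleAverage_comp_comm hgi]
        rfl
      rw [e]; simp
    have h3 := hre 0 (mem_ball_self one_pos)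
    rw [← h1]
    apply Complex.ext
    · rw [h3]; simp
    · simp [h2]
  have h1 := hc w (by simpa using hw)
  have h2 : P w = c + Q w := by
    have : (P - Q) w = P w - Q w := rfl
    rw [this] at h1
    linear_combination h1
  rw [h2, h0]
  congr 1
  simp only [hQ]
  apply Real.circleAverage_congr_sphere
  intro ζ _
  simp only [smul_eq_mul, herglotz_eq_ker, hg]

/-- the functional -/
noncomputable def Phi (P : ℂ → ℂ) (w : ℂ) : ℝ :=
  ((cay w).re - 1) * (cay w * P w).re +
    (cay w).im * (∫ τ in (0:ℝ)..1, P (τ * w) * (2 / (1 - τ * w) ^ 2 * w)).im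

lemma int_weight {w : ℂ} (hw : ‖w‖ < 1) :
    ∫ τ in (0:ℝ)..1, (2 / (1 - (τ:ℂ) * w) ^ 2 * w) = cay w - 1 := by
  have hd : ∀ τ ∈ uIcc (0:ℝ) 1, HasDerivAt (fun τ : ℝ => cay (τ * w))
      (2 / (1 - (τ:ℂ) * w) ^ 2 * w) τ := by
    intro τ hτ
    rw [uIcc_of_le zero_le_one] at hτ
    have h1 := norm_tau_mul hw hτ
    have h2 : HasDerivAt (fun τ : ℝ => (τ:ℂ) * w) w τ := by
      simpa using (Complex.ofRealCLM.hasDerivAt (x := τ)).mul_const w
    exact (hasDerivAt_cay (one_sub_ne h1)).comp_of_eq τ h2 rfl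
  rw [intervalIntegral.integral_eq_sub_of_hasDerivAt hd]
  · simp [cay_zero]
  · apply ContinuousOn.intervalIntegrable
    rw [uIcc_of_le zero_le_one]
    intro τ hτ
    have h1 := norm_tau_mul hw hτ
    have h2 : (1 - (τ:ℂ) * w) ^ 2 ≠ 0 := pow_ne_zero 2 (one_sub_ne h1)
    apply ContinuousAt.continuousWithinAt
    have hc : ContinuousAt (fun τ : ℝ => (τ:ℂ) * w) τ := by fun_prop
    exact (continuousAt_const.div ((continuousAt_const.sub hc).pow 2) h2).mul continuousAt_const

/-- the weight along the segment -/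
noncomputable def wt (w : ℂ) (τ : ℝ) : ℂ := 2 / (1 - (τ:ℂ) * w) ^ 2 * w

lemma continuousOn_wt {w : ℂ} (hw : ‖w‖ < 1) : ContinuousOn (wt w) (Icc 0 1) := by
  intro τ hτ
  have h1 := norm_tau_mul hw hτ
  have h2 : (1 - (τ:ℂ) * w) ^ 2 ≠ 0 := pow_ne_zero 2 (one_sub_ne h1)
  apply ContinuousAt.continuousWithinAt
  have hc : ContinuousAt (fun τ : ℝ => (τ:ℂ) * w) τ := by fun_prop
  exact (continuousAt_const.div ((continuousAt_const.sub hc).pow 2) h2).mul continuousAt_const

/-! ### The two-variable integrand -/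

section TwoVar

variable {w : ℂ} {m : ℝ → ℝ}

lemma continuousOn_ker2 (hw : ‖w‖ < 1) :
    ContinuousOn (fun p : ℝ × ℝ => ker (circleMap 0 1 p.2) (p.1 * w)) (Icc 0 1 ×ˢ univ) := by
  intro p hp
  have h1 := norm_tau_mul hw hp.1
  have h3 : circleMap 0 1 p.2 - (p.1:ℂ) * w ≠ 0 := ker_ne (circleMap_norm _) h1
  apply ContinuousAt.continuousWithinAt
  unfold ker
  have hc : ContinuousAt (fun p : ℝ × ℝ => (p.1:ℂ) * w) p := by fun_prop
  have hc2 : ContinuousAt (fun p : ℝ × ℝ => circleMap 0 1 p.2) p :=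
    ((continuous_circleMap 0 1).comp continuous_snd).continuousAt
  exact (hc2.add hc).div (hc2.sub hc) h3

lemma continuousOn_ker_theta (hw : ‖w‖ < 1) {τ : ℝ} (hτ : τ ∈ Icc (0:ℝ) 1) :
    Continuous (fun θ : ℝ => ker (circleMap 0 1 θ) (τ * w)) := by
  unfold ker
  exact ((continuous_circleMap 0 1).add continuous_const).div
    ((continuous_circleMap 0 1).sub continuous_const)
    (fun θ => ker_ne (circleMap_norm θ) (norm_tau_mul hw hτ))

/-- the real valued integrand -/
noncomputable def fker (w : ℂ) (m : ℝ → ℝ) (τ θ : ℝ) : ℝ :=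
  (ker (circleMap 0 1 θ) (τ * w) * wt w τ).im * m θ

lemma continuousOn_fker (hw : ‖w‖ < 1) (hm : Continuous m) :
    ContinuousOn (Function.uncurry (fker w m)) (Icc 0 1 ×ˢ univ) := by
  have h1 : ContinuousOn (fun p : ℝ × ℝ => wt w p.1) (Icc 0 1 ×ˢ univ) :=
    (continuousOn_wt hw).comp continuousOn_fst (fun p hp => hp.1)
  have h2 : Continuous (fun p : ℝ × ℝ => m p.2) := hm.comp continuous_snd
  have h3 : ContinuousOn (fun p : ℝ × ℝ => ker (circleMap 0 1 p.2) (p.1 * w) * wt w p.1)
      (Icc 0 1 ×ˢ univ) := (continuousOn_ker2 hw).mul h1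
  have h4 : ContinuousOn (fun p : ℝ × ℝ => (ker (circleMap 0 1 p.2) (p.1 * w) * wt w p.1).im)
      (Icc 0 1 ×ˢ univ) := Complex.continuous_im.comp_continuousOn h3
  exact h4.mul h2.continuousOn

lemma integrableOn_fker (hw : ‖w‖ < 1) (hm : Continuous m) :
    IntegrableOn (Function.uncurry (fker w m)) (uIoc 0 1 ×ˢ uIoc 0 (2 * Real.pi)) := by
  have hK : IsCompact (Icc (0:ℝ) 1 ×ˢ Icc (0:ℝ) (2 * Real.pi)) := isCompact_Icc.prod isCompact_Icc
  apply (((continuousOn_fker hw hm).mono
    (prod_mono_right (subset_univ _))).integrableOn_compact hK).mono_set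
  rw [uIoc_of_le zero_le_one, uIoc_of_le Real.two_pi_pos.le]
  exact prod_mono Ioc_subset_Icc_self Ioc_subset_Icc_self

lemma inner_fker (hw : ‖w‖ < 1) (θ : ℝ) :
    ∫ τ in (0:ℝ)..1, fker w m τ θ = (kint (circleMap 0 1 θ) w).im * m θ := by
  unfold fker
  rw [intervalIntegral.integral_mul_const]
  congr 1
  have hi : IntervalIntegrable (fun τ : ℝ => ker (circleMap 0 1 θ) (τ * w) * wt w τ)
      volume 0 1 := by
    apply ContinuousOn.intervalIntegrable
    rw [uIcc_of_le zero_le_one]
    exact continuousOn_kint (circleMap_norm θ) hw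
  have h5 := Complex.imCLM.intervalIntegral_comp_comm hi
  simp only [Complex.imCLM_apply] at h5
  rw [h5]
  rfl

lemma prod_fker (hw : ‖w‖ < 1) (hm : Continuous m) : Integrable (Function.uncurry (fker w m))
    ((volume.restrict (uIoc 0 1)).prod (volume.restrict (uIoc 0 (2 * Real.pi)))) := by
  rw [Measure.prod_restrict, ← Measure.volume_eq_prod]
  exact integrableOn_fker hw hm

lemma intervalIntegrable_outer (hw : ‖w‖ < 1) (hm : Continuous m) :
    IntervalIntegrable (fun τ => ∫ θ in (0:ℝ)..2 * Real.pi, fker w m τ θ) volume 0 1 := by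
  rw [intervalIntegrable_iff]
  have h6 := (prod_fker hw hm).integral_prod_left
  have h7 : (fun τ : ℝ => ∫ θ, Function.uncurry (fker w m) (τ, θ)
      ∂(volume.restrict (uIoc (0:ℝ) (2 * Real.pi)))) =
      fun τ => ∫ θ in (0:ℝ)..2 * Real.pi, fker w m τ θ := by
    funext τ
    rw [uIoc_of_le Real.two_pi_pos.le, ← intervalIntegral.integral_of_le Real.two_pi_pos.le]
    rfl
  rw [h7] at h6
  exact h6

lemma intervalIntegrable_kint (hw : ‖w‖ < 1) (hm : Continuous m) :
    IntervalIntegrable (fun θ : ℝ => (kint (circleMap 0 1 θ) w).im * m θ)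
      volume 0 (2 * Real.pi) := by
  rw [intervalIntegrable_iff]
  have h6 := (prod_fker hw hm).integral_prod_right
  have h7 : (fun θ : ℝ => ∫ τ, Function.uncurry (fker w m) (τ, θ)
      ∂(volume.restrict (uIoc (0:ℝ) 1))) =
      fun θ => (kint (circleMap 0 1 θ) w).im * m θ := by
    funext θ
    rw [uIoc_of_le zero_le_one, ← intervalIntegral.integral_of_le zero_le_one]
    exact inner_fker hw θ
  rw [h7] at h6
  exact h6

lemma im_mul_integral (hw : ‖w‖ < 1) (hm : Continuous m) {τ : ℝ} (hτ : τ ∈ Icc (0:ℝ) 1) :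
    ((((2 * Real.pi)⁻¹ : ℝ) : ℂ) *
      (∫ θ in (0:ℝ)..2 * Real.pi, ker (circleMap 0 1 θ) (τ * w) * (m θ : ℂ)) * wt w τ).im = (2 * Real.pi)⁻¹ * ∫ θ in (0:ℝ)..2 * Real.pi, fker w m τ θ := by
  have hi : IntervalIntegrable (fun θ : ℝ => ker (circleMap 0 1 θ) (τ * w) * wt w τ * (m θ : ℂ))
      volume 0 (2 * Real.pi) :=
    (((continuousOn_ker_theta hw hτ).mul continuous_const).mul
      (Complex.continuous_ofReal.comp hm)).intervalIntegrable _ _
  have h6 := Complex.imCLM.intervalIntegral_comp_comm hi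
  simp only [Complex.imCLM_apply] at h6
  have h7 : (((2 * Real.pi)⁻¹ : ℝ) : ℂ) * (∫ θ in (0:ℝ)..2 * Real.pi,
      ker (circleMap 0 1 θ) (τ * w) * (m θ : ℂ)) * wt w τ =
      (((2 * Real.pi)⁻¹ : ℝ) : ℂ) * ∫ θ in (0:ℝ)..2 * Real.pi,
        ker (circleMap 0 1 θ) (τ * w) * wt w τ * (m θ : ℂ) := by
    rw [mul_assoc, ← intervalIntegral.integral_mul_const]
    congr 1
    apply intervalIntegral.integral_congr
    intro θ _
    ring
  rw [h7, im_ofReal_mul, ← h6]
  congr 1
  apply intervalIntegral.integral_congr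
  intro θ _
  simp only [fker]
  rw [im_mul_ofReal]

lemma re_mul_integral (hw : ‖w‖ < 1) (hm : Continuous m) :
    (cay w * ((((2 * Real.pi)⁻¹ : ℝ) : ℂ) * ∫ θ in (0:ℝ)..2 * Real.pi,
      ker (circleMap 0 1 θ) w * (m θ : ℂ))).re = (2 * Real.pi)⁻¹ *
      ∫ θ in (0:ℝ)..2 * Real.pi, (cay w * ker (circleMap 0 1 θ) w).re * m θ := by
  have hk : Continuous (fun θ : ℝ => ker (circleMap 0 1 θ) w) := by
    have := continuousOn_ker_theta hw (τ := 1) (by simp)
    simpa using this
  have hi : IntervalIntegrable (fun θ : ℝ => cay w * ker (circleMap 0 1 θ) w * (m θ : ℂ))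
      volume 0 (2 * Real.pi) :=
    ((continuous_const.mul hk).mul (Complex.continuous_ofReal.comp hm)).intervalIntegrable _ _
  have h6 := Complex.reCLM.intervalIntegral_comp_comm hi
  simp only [Complex.reCLM_apply] at h6
  have h7 : cay w * ((((2 * Real.pi)⁻¹ : ℝ) : ℂ) * ∫ θ in (0:ℝ)..2 * Real.pi,
      ker (circleMap 0 1 θ) w * (m θ : ℂ)) =
      (((2 * Real.pi)⁻¹ : ℝ) : ℂ) * ∫ θ in (0:ℝ)..2 * Real.pi,
        cay w * ker (circleMap 0 1 θ) w * (m θ : ℂ) := by
    rw [mul_left_comm, ← intervalIntegral.integral_const_mul]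
    congr 1
    apply intervalIntegral.integral_congr
    intro θ _
    ring
  rw [h7, re_ofReal_mul, ← h6]
  congr 1
  apply intervalIntegral.integral_congr
  intro θ _
  simp only
  rw [re_mul_ofReal]

end TwoVar

/-- positivity for functions given by the Herglotz formula -/
lemma Phi_rep {P : ℂ → ℂ} {w : ℂ} (hw : ‖w‖ < 1) {m : ℝ → ℝ} (hm : Continuous m) {b : ℝ}
    (hPw : ContinuousOn (fun τ : ℝ => P (τ * w) * wt w τ) (Icc 0 1))
    (hrep : ∀ u : ℂ, ‖u‖ < 1 → P u = I * (b:ℂ) + (((2 * Real.pi)⁻¹ : ℝ) : ℂ) *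
      ∫ θ in (0:ℝ)..2 * Real.pi, ker (circleMap 0 1 θ) u * (m θ : ℂ)) :
    Phi P w = (2 * Real.pi)⁻¹ * ∫ θ in (0:ℝ)..2 * Real.pi,
      Jfun (circleMap 0 1 θ) w * m θ := by
  -- the path integral
  have e0 : (∫ τ in (0:ℝ)..1, P (τ * w) * (2 / (1 - τ * w) ^ 2 * w)).im =
      ∫ τ in (0:ℝ)..1, (P (τ * w) * wt w τ).im := by
    have hi : IntervalIntegrable (fun τ : ℝ => P (τ * w) * wt w τ) volume 0 1 := by
      apply ContinuousOn.intervalIntegrable
      rwa [uIcc_of_le zero_le_one]
    have := Complex.imCLM.intervalIntegral_comp_comm hi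
    simp only [Complex.imCLM_apply] at this
    rw [this]
    rfl
  have e1 : ∀ τ ∈ uIcc (0:ℝ) 1, (P (τ * w) * wt w τ).im = b * (wt w τ).re +
      (2 * Real.pi)⁻¹ * ∫ θ in (0:ℝ)..2 * Real.pi, fker w m τ θ := by
    intro τ hτ
    rw [uIcc_of_le zero_le_one] at hτ
    rw [hrep _ (norm_tau_mul hw hτ), add_mul, add_im, im_mul_integral hw hm hτ]
    congr 1
    simp
  have hwtc : IntervalIntegrable (fun τ => (wt w τ).re) volume 0 1 := by
    apply ContinuousOn.intervalIntegrable
    rw [uIcc_of_le zero_le_one]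
    exact Complex.continuous_re.comp_continuousOn (continuousOn_wt hw)
  have e2 : (∫ τ in (0:ℝ)..1, (wt w τ).re) = (cay w).re - 1 := by
    have hi : IntervalIntegrable (wt w) volume 0 1 := by
      apply ContinuousOn.intervalIntegrable
      rw [uIcc_of_le zero_le_one]
      exact continuousOn_wt hw
    have h5 := Complex.reCLM.intervalIntegral_comp_comm hi
    simp only [Complex.reCLM_apply] at h5
    rw [h5]
    have : (∫ τ in (0:ℝ)..1, wt w τ) = cay w - 1 := int_weight hw
    rw [this]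
    simp
  have e3 : (∫ τ in (0:ℝ)..1, ∫ θ in (0:ℝ)..2 * Real.pi, fker w m τ θ) =
      ∫ θ in (0:ℝ)..2 * Real.pi, (kint (circleMap 0 1 θ) w).im * m θ := by
    rw [intervalIntegral_intervalIntegral_swap (integrableOn_fker hw hm)]
    apply intervalIntegral.integral_congr
    intro θ _
    exact inner_fker hw θ
  have h1 : (∫ τ in (0:ℝ)..1, P (τ * w) * (2 / (1 - τ * w) ^ 2 * w)).im =
      b * ((cay w).re - 1) + (2 * Real.pi)⁻¹ * ∫ θ in (0:ℝ)..2 * Real.pi,
        (kint (circleMap 0 1 θ) w).im * m θ := by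
    rw [e0, intervalIntegral.integral_congr e1, intervalIntegral.integral_add
      (hwtc.const_mul b) ((intervalIntegrable_outer hw hm).const_mul _),
      intervalIntegral.integral_const_mul, intervalIntegral.integral_const_mul, e2, e3]
  have h2 : (cay w * P w).re = -b * (cay w).im + (2 * Real.pi)⁻¹ *
      ∫ θ in (0:ℝ)..2 * Real.pi, (cay w * ker (circleMap 0 1 θ) w).re * m θ := by
    rw [hrep w hw, mul_add, add_re, re_mul_integral hw hm]
    congr 1
    simp
    ring
  have hk : Continuous (fun θ : ℝ => ker (circleMap 0 1 θ) w) := by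
    have := continuousOn_ker_theta hw (τ := 1) (by simp)
    simpa using this
  have hi1 : IntervalIntegrable (fun θ : ℝ => (cay w * ker (circleMap 0 1 θ) w).re * m θ)
      volume 0 (2 * Real.pi) :=
    ((Complex.continuous_re.comp (continuous_const.mul hk)).mul hm).intervalIntegrable _ _
  have hi2 := intervalIntegrable_kint hw hm
  unfold Phi
  rw [h1, h2]
  have h5 : (∫ θ in (0:ℝ)..2 * Real.pi, Jfun (circleMap 0 1 θ) w * m θ) =
      ((cay w).re - 1) * (∫ θ in (0:ℝ)..2 * Real.pi,
        (cay w * ker (circleMap 0 1 θ) w).re * m θ) + (cay w).im *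
        ∫ θ in (0:ℝ)..2 * Real.pi, (kint (circleMap 0 1 θ) w).im * m θ := by
    rw [← intervalIntegral.integral_const_mul, ← intervalIntegral.integral_const_mul,
      ← intervalIntegral.integral_add (hi1.const_mul _) (hi2.const_mul _)]
    apply intervalIntegral.integral_congr
    intro θ _
    simp only [Jfun]
    ring
  rw [h5]
  ring

/-- positivity for functions continuous up to the boundary -/
lemma Phi_nonneg_of_cl {P : ℂ → ℂ} (hP : DiffContOnCl ℂ P (ball 0 1))
    (hre : ∀ ζ : ℂ, ‖ζ‖ = 1 → 0 ≤ (P ζ).re) {w : ℂ} (hw : ‖w‖ < 1) (hx : 1 ≤ (cay w).re) :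
    0 ≤ Phi P w := by
  have hcl : closure (ball (0:ℂ) 1) = closedBall 0 1 := closure_ball (0:ℂ) one_ne_zero
  have hPc : ContinuousOn P (closedBall 0 1) := by rw [← hcl]; exact hP.continuousOn
  have hmc : Continuous fun θ => (P (circleMap 0 1 θ)).re := by
    have : Continuous fun θ => P (circleMap 0 1 θ) := by
      apply hPc.comp_continuous (continuous_circleMap 0 1)
      intro θ
      simp
    exact Complex.continuous_re.comp this
  have hrep : ∀ u : ℂ, ‖u‖ < 1 → P u = I * (((P 0).im : ℝ) : ℂ) +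
      (((2 * Real.pi)⁻¹ : ℝ) : ℂ) * ∫ θ in (0:ℝ)..2 * Real.pi,
        ker (circleMap 0 1 θ) u * (((P (circleMap 0 1 θ)).re : ℝ) : ℂ) := by
    intro u hu
    rw [schwarz hP hu]
    simp only [Real.circleAverage]
    congr 1
  have hPw : ContinuousOn (fun τ : ℝ => P (τ * w) * wt w τ) (Icc 0 1) := by
    apply ContinuousOn.mul _ (continuousOn_wt hw)
    apply hPc.comp (by fun_prop)
    intro τ hτ
    simpa using (norm_tau_mul hw hτ).le
  rw [Phi_rep hw hmc hPw hrep]
  apply mul_nonneg (by positivity)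
  apply intervalIntegral.integral_nonneg Real.two_pi_pos.le
  intro θ _
  exact mul_nonneg (Jfun_nonneg (circleMap_norm θ) hw hx) (hre _ (circleMap_norm θ))

/-- **Positivity of the functional** on holomorphic functions with nonnegative real part. -/
theorem Phi_nonneg {P : ℂ → ℂ} (hP : DifferentiableOn ℂ P (ball 0 1))
    (hre : ∀ ζ : ℂ, ‖ζ‖ < 1 → 0 ≤ (P ζ).re) {w : ℂ} (hw : ‖w‖ < 1) (hx : 1 ≤ (cay w).re) :
    0 ≤ Phi P w := by
  -- approximation by dilations
  have hmem : ∀ r : ℝ, r ∈ Ico (0:ℝ) 1 → ∀ u : ℂ, ‖u‖ ≤ 1 → ‖(r:ℂ) * u‖ < 1 := by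
    intro r hr u hu
    rw [norm_mul, Complex.norm_real, Real.norm_eq_abs, abs_of_nonneg hr.1]
    calc r * ‖u‖ ≤ r * 1 := by gcongr; exact hr.1
      _ < 1 := by linarith [hr.2]
  have happ : ∀ r : ℝ, r ∈ Ico (0:ℝ) 1 → 0 ≤ Phi (fun u => P (r * u)) w := by
    intro r hr
    apply Phi_nonneg_of_cl _ _ hw hx
    · apply DifferentiableOn.diffContOnCl
      rw [closure_ball (0:ℂ) one_ne_zero]
      apply hP.comp (by fun_prop)
      intro u hu
      have := hmem r hr u (by simpa using hu)
      simpa using this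
    · intro ζ hζ
      exact hre _ (hmem r hr ζ hζ.le)
  have hPc : ContinuousOn P (ball 0 1) := hP.continuousOn
  -- the limit
  have hlim : Tendsto (fun r : ℝ => Phi (fun u => P (r * u)) w) (𝓝[<] 1) (𝓝 (Phi P w)) := by
    unfold Phi
    have h0 : Tendsto (fun r : ℝ => (r:ℂ) * w) (𝓝[<] 1) (𝓝 w) := by
      have : Continuous fun r : ℝ => (r:ℂ) * w := by fun_prop
      have h := this.tendsto 1
      simp only [ofReal_one, one_mul] at h
      exact h.mono_left nhdsWithin_le_nhds
    have h1 : Tendsto (fun r : ℝ => P (r * w)) (𝓝[<] 1) (𝓝 (P w)) :=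
      (hPc.continuousAt (isOpen_ball.mem_nhds (by simpa using hw))).tendsto.comp h0
    have h2 : Tendsto (fun r : ℝ => ∫ τ in (0:ℝ)..1, P (r * (τ * w)) * (2 / (1 - τ * w) ^ 2 * w))
        (𝓝[<] 1) (𝓝 (∫ τ in (0:ℝ)..1, P (τ * w) * (2 / (1 - τ * w) ^ 2 * w))) := by
      -- bound
      have hK : IsCompact (closedBall (0:ℂ) ‖w‖) := isCompact_closedBall _ _
      have hKs : closedBall (0:ℂ) ‖w‖ ⊆ ball 0 1 := closedBall_subset_ball hw
      obtain ⟨M, hM⟩ := hK.exists_bound_of_continuousOn (hPc.mono hKs)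
      have hin : ∀ r ∈ Ioo (0:ℝ) 1, ∀ τ ∈ Icc (0:ℝ) 1, (r:ℂ) * (τ * w) ∈ closedBall (0:ℂ) ‖w‖ := by
        intro r hr τ hτ
        rw [mem_closedBall_zero_iff, norm_mul, norm_mul, Complex.norm_real, Complex.norm_real,
          Real.norm_eq_abs, Real.norm_eq_abs, abs_of_nonneg hr.1.le, abs_of_nonneg hτ.1]
        have h5 : τ * ‖w‖ ≤ 1 * ‖w‖ := by gcongr; exact hτ.2
        have h6 : r * (τ * ‖w‖) ≤ 1 * (τ * ‖w‖) := by
          have : 0 ≤ τ * ‖w‖ := mul_nonneg hτ.1 (norm_nonneg _)
          gcongr; exact hr.2.le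
        linarith
      have hev : ∀ᶠ r : ℝ in 𝓝[<] (1:ℝ), r ∈ Ioo (0:ℝ) 1 := Ioo_mem_nhdsLT one_pos
      apply intervalIntegral.tendsto_integral_filter_of_dominated_convergence
        (fun τ => M * ‖wt w τ‖)
      · filter_upwards [hev] with r hr
        have : ContinuousOn (fun τ : ℝ => P (r * (τ * w)) * (2 / (1 - τ * w) ^ 2 * w)) (Icc 0 1) := by
          apply ContinuousOn.mul _ (continuousOn_wt hw)
          apply hPc.comp (by fun_prop)
          intro τ hτ
          exact hKs (hin r hr τ hτ)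
        rw [uIoc_of_le zero_le_one]
        exact (this.mono Ioc_subset_Icc_self).aestronglyMeasurable measurableSet_Ioc
      · filter_upwards [hev] with r hr
        apply Filter.Eventually.of_forall
        intro τ hτ
        rw [uIoc_of_le zero_le_one] at hτ
        rw [norm_mul]
        apply mul_le_mul_of_nonneg_right _ (norm_nonneg _)
        exact hM _ (hin r hr τ (Ioc_subset_Icc_self hτ))
      · apply ContinuousOn.intervalIntegrable
        rw [uIcc_of_le zero_le_one]
        exact continuousOn_const.mul (continuousOn_wt hw).norm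
      · apply Filter.Eventually.of_forall
        intro τ hτ
        rw [uIoc_of_le zero_le_one] at hτ
        have hτ1 := norm_tau_mul hw (Ioc_subset_Icc_self hτ)
        apply Tendsto.mul_const
        have h3 : Tendsto (fun r : ℝ => (r:ℂ) * (τ * w)) (𝓝[<] 1) (𝓝 (τ * w)) := by
          have : Continuous fun r : ℝ => (r:ℂ) * (τ * w) := by fun_prop
          have h := this.tendsto 1
          simp only [ofReal_one, one_mul] at h
          exact h.mono_left nhdsWithin_le_nhds
        exact (hPc.continuousAt (isOpen_ball.mem_nhds (by simpa using hτ1))).tendsto.comp h3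
    have h3 := (Complex.continuous_re.tendsto _).comp (h1.const_mul (cay w))
    have h4 := (Complex.continuous_im.tendsto _).comp h2
    exact (h3.const_mul _).add (h4.const_mul _)
  apply ge_of_tendsto hlim
  have hev : ∀ᶠ r : ℝ in 𝓝[<] (1:ℝ), r ∈ Ioo (0:ℝ) 1 := Ioo_mem_nhdsLT one_pos
  filter_upwards [hev] with r hr
  exact happ r ⟨hr.1.le, hr.2⟩

end Q73.Semi
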