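import Mathlib

/-!
# The kernel inequality behind the monotonicity of the orthogonal speed
-/

set_option autoImplicit false

open Real

namespace Q73.Semi

lemma arctan_le_self {τ : ℝ} (h : 0 ≤ τ) : arctan τ ≤ τ := by
  have h1 : 0 ≤ arctan τ := by rwa [arctan_nonneg]
  have h2 : arctan τ < π / 2 := arctan_lt_pi_div_two τ
  rcases h1.eq_or_lt with h0 | h0
  · rw [← h0]; exact h
  · have := lt_tan h0 h2
    rw [tan_arctan] at this
    exact this.le

lemma div_le_arctan {τ : ℝ} (h : 0 ≤ τ) : τ / (1 + τ ^ 2) ≤ arctan τ := by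
  have h1 : 0 ≤ arctan τ := by rwa [arctan_nonneg]
  have h2 : sin (arctan τ) * cos (arctan τ) = τ / (1 + τ ^ 2) := by
    rw [sin_arctan, cos_arctan, div_mul_div_comm, mul_one]
    congr 1
    rw [← sq, sq_sqrt (by positivity)]
  rw [← h2]
  calc sin (arctan τ) * cos (arctan τ) ≤ arctan τ * 1 :=
        mul_le_mul (sin_le h1) (cos_le_one _) (cos_arctan_pos τ).le h1
    _ = arctan τ := mul_one _

/-- The inequality for `y > 0`. -/
lemma star_pos {x y s : ℝ} (hx : 1 ≤ x) (hy : 0 < y) :
    0 ≤ (x - 1) * ((x ^ 2 + y * (y - s)) / (x ^ 2 + (y - s) ^ 2)) +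
      y * (arctan ((y - s) / x) + arctan s) := by
  have hx0 : 0 < x := by linarith
  have hden : 0 < x ^ 2 + (y - s) ^ 2 := by positivity
  by_cases h1 : 0 ≤ x ^ 2 + y * (y - s)
  · by_cases h2 : 0 ≤ y + s * (x - 1)
    · -- both terms are nonnegative
      have h3 : arctan (-s) ≤ arctan ((y - s) / x) := by
        apply arctan_strictMono.monotone
        rw [le_div_iff₀ hx0]
        nlinarith
      rw [arctan_neg] at h3
      have h4 : 0 ≤ (x ^ 2 + y * (y - s)) / (x ^ 2 + (y - s) ^ 2) := by positivity
      have h5 : 0 ≤ x - 1 := by linarith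
      have h6 : 0 ≤ arctan ((y - s) / x) + arctan s := by linarith
      positivity
    · -- `s` very negative
      rw [not_le] at h2
      have hx1 : 0 < x - 1 := by
        rcases hx.eq_or_lt with h | h
        · exfalso; rw [← h] at h2; linarith
        · linarith
      have hs : s < 0 := by
        by_contra hcon
        rw [not_lt] at hcon
        have := mul_nonneg hcon hx1.le
        linarith
      have hab : (y - s) / x * s < 1 := by
        have : (y - s) / x * s ≤ 0 :=
          mul_nonpos_of_nonneg_of_nonpos (div_nonneg (by linarith) hx0.le) hs.le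
        linarith
      rw [arctan_add hab]
      set τ : ℝ := (-(y - s) - s * x) / (x - (y - s) * s) with hτ
      have hd : 0 < x - (y - s) * s := by
        have : 0 < (y - s) * (-s) := mul_pos (by linarith) (by linarith)
        linarith
      have e1 : ((y - s) / x + s) / (1 - (y - s) / x * s) = -τ := by
        rw [hτ]
        have h3 : (1 - (y - s) / x * s) = (x - (y - s) * s) / x := by field_simp
        rw [h3]
        field_simp
        ring
      have hτ0 : 0 ≤ τ := by
        apply div_nonneg _ hd.le
        nlinarith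
      rw [e1, arctan_neg]
      have h4 := arctan_le_self hτ0
      have h5 : y * τ ≤ (x - 1) * ((x ^ 2 + y * (y - s)) / (x ^ 2 + (y - s) ^ 2)) := by
        rw [hτ, mul_div_assoc', mul_div_assoc', div_le_div_iff₀ hd hden]
        set σ := -s with hσ
        have hσp : 0 < σ := by linarith
        have es : s = -σ := by linarith
        rw [es]
        have hT : 0 < y + σ := by linarith
        have key : 0 ≤ (x - 1) * (x ^ 3 + x ^ 2 * σ ^ 2 + x * y * (y + σ)) +
            y ^ 2 * (x ^ 2 + (y + σ) ^ 2) := by positivity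
        nlinarith [key]
      nlinarith
  · -- `s` large
    rw [not_le] at h1
    have hys : y < s := by
      by_contra hcon
      rw [not_lt] at hcon
      have : 0 ≤ y * (y - s) := mul_nonneg hy.le (by linarith)
      nlinarith [sq_nonneg x]
    set T := s - y with hT
    have hTp : 0 < T := by linarith
    have es : s = y + T := by linarith
    have hab : (y - s) / x * s < 1 := by
      have : (y - s) / x * s ≤ 0 :=
        mul_nonpos_of_nonpos_of_nonneg (div_nonpos_of_nonpos_of_nonneg (by linarith) hx0.le)
          (by linarith)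
      linarith
    rw [arctan_add hab]
    set τ : ℝ := (s * x - T) / (x + T * s) with hτ
    have hsp : 0 < s := by linarith
    have hd : 0 < x + T * s := by positivity
    have e1 : ((y - s) / x + s) / (1 - (y - s) / x * s) = τ := by
      rw [hτ]
      have h3 : (1 - (y - s) / x * s) = (x + T * s) / x := by
        rw [hT]; field_simp; ring
      rw [h3, hT]
      field_simp
      ring
    have hnum : 0 < s * x - T := by
      rw [es]; nlinarith
    have hτ0 : 0 ≤ τ := (div_pos hnum hd).le
    rw [e1]
    have h4 := div_le_arctan hτ0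
    have h5 : τ / (1 + τ ^ 2) = (s * x - T) * (x + T * s) / ((1 + s ^ 2) * (x ^ 2 + T ^ 2)) := by
      rw [hτ]
      have : (1 + ((s * x - T) / (x + T * s)) ^ 2) =
          ((1 + s ^ 2) * (x ^ 2 + T ^ 2)) / (x + T * s) ^ 2 := by
        field_simp
        ring
      rw [this]
      field_simp
    rw [h5] at h4
    have h6 : (x - 1) * ((y * T - x ^ 2) / (x ^ 2 + T ^ 2)) ≤
        y * ((s * x - T) * (x + T * s) / ((1 + s ^ 2) * (x ^ 2 + T ^ 2))) := by
      rw [mul_div_assoc', mul_div_assoc', div_le_div_iff₀ (by positivity) (by positivity)]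
      have key : 0 ≤ (x - 1) ^ 2 * (y * T) + (x - 1) * (x ^ 2 * (1 + s ^ 2)) + x ^ 2 * y ^ 2 +
          y ^ 2 * s * T := by
        have : 0 ≤ x - 1 := by linarith
        positivity
      have e2 : y * ((s * x - T) * (x + T * s)) - (x - 1) * (y * T - x ^ 2) * (1 + s ^ 2) =
          (x - 1) ^ 2 * (y * T) + (x - 1) * (x ^ 2 * (1 + s ^ 2)) + x ^ 2 * y ^ 2 +
          y ^ 2 * s * T := by
        rw [es]; ring
      have h7 : (x - 1) * (y * T - x ^ 2) * (1 + s ^ 2) ≤ y * ((s * x - T) * (x + T * s)) := by
        linarith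
      have h8 : 0 < x ^ 2 + T ^ 2 := by positivity
      nlinarith [mul_le_mul_of_nonneg_right h7 h8.le]
    have e3 : (x ^ 2 + y * (y - s)) / (x ^ 2 + (y - s) ^ 2) =
        -((y * T - x ^ 2) / (x ^ 2 + T ^ 2)) := by
      rw [hT, ← neg_div]
      congr 1 <;> ring
    rw [e3]
    nlinarith [mul_le_mul_of_nonneg_left h4 hy.le]

/-- **The kernel inequality.** -/
theorem star {x : ℝ} (y s : ℝ) (hx : 1 ≤ x) :
    0 ≤ (x - 1) * ((x ^ 2 + y * (y - s)) / (x ^ 2 + (y - s) ^ 2)) +
      y * (arctan ((y - s) / x) + arctan s) := by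
  rcases lt_trichotomy y 0 with hy | hy | hy
  · have h := star_pos (s := -s) hx (neg_pos.2 hy)
    have e1 : (-y - -s) / x = -((y - s) / x) := by ring
    rw [e1, arctan_neg, arctan_neg] at h
    have e2 : (x ^ 2 + -y * (-y - -s)) / (x ^ 2 + (-y - -s) ^ 2) =
        (x ^ 2 + y * (y - s)) / (x ^ 2 + (y - s) ^ 2) := by
      congr 1 <;> ring
    rw [e2] at h
    nlinarith
  · subst hy
    have : 0 ≤ x - 1 := by linarith
    simp only [zero_mul, add_zero]
    positivity
  · exact star_pos hx hy

end Q73.Semi
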