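import Pool.Agent.Q73.Semi.Ineq

/-!
# The functional on the kernels of the Herglotz representation
-/

set_option autoImplicit false

open Complex Metric MeasureTheory Set Filter Topology

namespace Q73.Semi

/-- The Cayley map from the disc to the right half plane. -/
noncomputable def cay (w : ℂ) : ℂ := (1 + w) / (1 - w)

lemma one_sub_ne {w : ℂ} (hw : ‖w‖ < 1) : 1 - w ≠ 0 := by
  intro h
  have : w = 1 := by linear_combination -h
  rw [this] at hw
  simp at hw

lemma cay_re (w : ℂ) : (cay w).re = (1 - ‖w‖ ^ 2) / ‖1 - w‖ ^ 2 := by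
  unfold cay
  rw [div_re, ← Complex.normSq_eq_norm_sq, ← Complex.normSq_eq_norm_sq, ← add_div]
  congr 1
  simp [Complex.normSq_apply]
  ring

lemma cay_re_pos {w : ℂ} (hw : ‖w‖ < 1) : 0 < (cay w).re := by
  rw [cay_re]
  have h1 : 0 < ‖1 - w‖ := norm_pos_iff.2 (one_sub_ne hw)
  have h2 : ‖w‖ ^ 2 < 1 := by
    have := norm_nonneg w
    nlinarith
  apply div_pos (by linarith) (by positivity)

lemma hasDerivAt_cay {w : ℂ} (hw : 1 - w ≠ 0) : HasDerivAt cay (2 / (1 - w) ^ 2) w := by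
  unfold cay
  have h := ((hasDerivAt_id w).const_add 1).div ((hasDerivAt_id w).const_sub 1) hw
  refine h.congr_deriv ?_
  simp only [id]
  congr 1
  ring

lemma cay_zero : cay 0 = 1 := by simp [cay]

/-- the primitive of the kernel with pole `i s` -/
noncomputable def prim (s : ℝ) (z : ℂ) : ℂ := (1 + (s:ℂ) ^ 2) * log (z - I * s) - I * s * z

lemma arg_eq_arctan {z : ℂ} (hz : 0 < z.re) : arg z = Real.arctan (z.im / z.re) := by
  have h1 : |arg z| < Real.pi / 2 := abs_arg_lt_pi_div_two_iff.2 (Or.inl hz)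
  rw [← tan_arg, Real.arctan_tan (by linarith [abs_lt.1 h1]) (abs_lt.1 h1).2]

/-- the inequality for the kernel with pole `i s` -/
lemma kernel_nonneg (s : ℝ) {z : ℂ} (hz : 1 ≤ z.re) :
    0 ≤ (z.re - 1) * (z * ((1 - I * s * z) / (z - I * s))).re +
      z.im * (prim s z - prim s 1).im := by
  have hz0 : 0 < z.re := by linarith
  have hne : z - I * s ≠ 0 := by
    intro h
    have := congrArg Complex.re h
    simp at this
    linarith
  have h := star z.im s hz
  have e1 : z * ((1 - I * s * z) / (z - I * s)) = (1 + (s:ℂ) ^ 2) * (z / (z - I * s)) - I * s * z := by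
    field_simp
    linear_combination (-(z * (s:ℂ) ^ 2)) * I_sq
  have e2 : (z / (z - I * s)).re = (z.re ^ 2 + z.im * (z.im - s)) / (z.re ^ 2 + (z.im - s) ^ 2) := by
    rw [div_re, ← add_div]
    congr 1
    · simp
      ring
    · simp [Complex.normSq_apply]
      ring
  have e3 : ((1 + (s:ℂ) ^ 2) * (z / (z - I * s)) - I * s * z).re =
      (1 + s ^ 2) * (z / (z - I * s)).re + s * z.im := by
    have : (1 + (s:ℂ) ^ 2) = ((1 + s ^ 2 : ℝ) : ℂ) := by push_cast; ring
    rw [this, sub_re, re_ofReal_mul]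
    simp
  have e4 : (prim s z - prim s 1).im =
      (1 + s ^ 2) * (Real.arctan ((z.im - s) / z.re) + Real.arctan s) - s * (z.re - 1) := by
    unfold prim
    have : (1 + (s:ℂ) ^ 2) = ((1 + s ^ 2 : ℝ) : ℂ) := by push_cast; ring
    rw [this, sub_im, sub_im, sub_im, im_ofReal_mul, im_ofReal_mul, log_im, log_im,
      arg_eq_arctan (z := z - I * s) (by simpa using hz0), arg_eq_arctan (z := 1 - I * s) (by simp)]
    simp
    ring_nf
  rw [e1, e3, e2, e4]
  have : (z.re - 1) * ((1 + s ^ 2) * ((z.re ^ 2 + z.im * (z.im - s)) /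
      (z.re ^ 2 + (z.im - s) ^ 2)) + s * z.im) +
      z.im * ((1 + s ^ 2) * (Real.arctan ((z.im - s) / z.re) + Real.arctan s) -
        s * (z.re - 1)) = (1 + s ^ 2) * ((z.re - 1) * ((z.re ^ 2 + z.im * (z.im - s)) /
      (z.re ^ 2 + (z.im - s) ^ 2)) + z.im * (Real.arctan ((z.im - s) / z.re) +
        Real.arctan s)) := by ring
  rw [this]
  positivity

/-- the kernel on the disc -/
noncomputable def ker (ζ u : ℂ) : ℂ := (ζ + u) / (ζ - u)

lemma ker_ne {ζ u : ℂ} (hζ : ‖ζ‖ = 1) (hu : ‖u‖ < 1) : ζ - u ≠ 0 := by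
  intro h
  have : ζ = u := by linear_combination h
  rw [this] at hζ
  linarith

/-- the path integral of the kernel -/
noncomputable def kint (ζ w : ℂ) : ℂ :=
  ∫ τ in (0:ℝ)..1, ker ζ (τ * w) * (2 / (1 - τ * w) ^ 2 * w)

lemma norm_tau_mul {w : ℂ} (hw : ‖w‖ < 1) {τ : ℝ} (hτ : τ ∈ Icc (0:ℝ) 1) : ‖(τ:ℂ) * w‖ < 1 := by
  rw [norm_mul, Complex.norm_real, Real.norm_eq_abs, abs_of_nonneg hτ.1]
  calc τ * ‖w‖ ≤ 1 * ‖w‖ := by gcongr; exact hτ.2
    _ < 1 := by linarith

lemma continuousOn_kint {ζ w : ℂ} (hζ : ‖ζ‖ = 1) (hw : ‖w‖ < 1) :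
    ContinuousOn (fun τ : ℝ => ker ζ (τ * w) * (2 / (1 - τ * w) ^ 2 * w)) (Icc 0 1) := by
  intro τ hτ
  have h1 := norm_tau_mul hw hτ
  have h2 : (1 - (τ:ℂ) * w) ^ 2 ≠ 0 := pow_ne_zero 2 (one_sub_ne h1)
  have h3 : ζ - (τ:ℂ) * w ≠ 0 := ker_ne hζ h1
  apply ContinuousAt.continuousWithinAt
  unfold ker
  have hc : ContinuousAt (fun τ : ℝ => (τ:ℂ) * w) τ := by fun_prop
  exact ((continuousAt_const.add hc).div (continuousAt_const.sub hc) h3).mul
    ((continuousAt_const.div ((continuousAt_const.sub hc).pow 2) h2).mul continuousAt_const)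

lemma kint_eq_sub {ζ w : ℂ} (hζ : ‖ζ‖ = 1) (hw : ‖w‖ < 1) {L : ℂ → ℂ}
    (hL : ∀ u : ℂ, ‖u‖ < 1 → HasDerivAt L (ker ζ u) (cay u)) :
    kint ζ w = L (cay w) - L 1 := by
  unfold kint
  have hd : ∀ τ ∈ uIcc (0:ℝ) 1, HasDerivAt (fun τ : ℝ => L (cay (τ * w)))
      (ker ζ (τ * w) * (2 / (1 - τ * w) ^ 2 * w)) τ := by
    intro τ hτ
    rw [uIcc_of_le zero_le_one] at hτ
    have h1 := norm_tau_mul hw hτ
    have h2 : HasDerivAt (fun τ : ℝ => (τ:ℂ) * w) w τ := by
      simpa using (Complex.ofRealCLM.hasDerivAt (x := τ)).mul_const w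
    have h3 := (hasDerivAt_cay (one_sub_ne h1)).comp_of_eq τ h2 rfl
    have h4 := (hL _ h1).comp_of_eq τ h3 rfl
    exact h4
  rw [intervalIntegral.integral_eq_sub_of_hasDerivAt hd]
  · simp [cay_zero]
  · apply ContinuousOn.intervalIntegrable
    rw [uIcc_of_le zero_le_one]
    exact continuousOn_kint hζ hw

/-- the value of the functional at the kernel with the pole `ζ`, `|ζ| = 1` -/
noncomputable def Jfun (ζ w : ℂ) : ℝ :=
  ((cay w).re - 1) * (cay w * ker ζ w).re + (cay w).im * (kint ζ w).im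

lemma Jfun_nonneg {ζ w : ℂ} (hζ : ‖ζ‖ = 1) (hw : ‖w‖ < 1) (hx : 1 ≤ (cay w).re) :
    0 ≤ Jfun ζ w := by
  unfold Jfun
  by_cases h1 : ζ = 1
  · -- the kernel is `z`
    subst h1
    have hk : ∀ u : ℂ, ker 1 u = cay u := fun u => rfl
    have hL : ∀ u : ℂ, ‖u‖ < 1 → HasDerivAt (fun z : ℂ => z ^ 2 / 2) (ker 1 u) (cay u) := by
      intro u _
      rw [hk]
      have := (hasDerivAt_pow 2 (cay u)).div_const 2
      refine this.congr_deriv ?_
      simp
    rw [kint_eq_sub (by simp) hw hL, hk]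
    set z := cay w
    have e1 : (z * z).re = z.re ^ 2 - z.im ^ 2 := by simp; ring
    have e2 : (z ^ 2 / 2 - 1 ^ 2 / 2 : ℂ).im = z.re * z.im := by
      have : (z ^ 2 / 2 - 1 ^ 2 / 2 : ℂ) = ((1 / 2 : ℝ) : ℂ) * (z * z - 1) := by
        push_cast; ring
      rw [this, im_ofReal_mul]
      simp
      ring
    rw [e1, e2]
    have : (z.re - 1) * (z.re ^ 2 - z.im ^ 2) + z.im * (z.re * z.im) =
        (z.re - 1) * z.re ^ 2 + z.im ^ 2 := by ring
    rw [this]
    have : 0 ≤ z.re - 1 := by linarith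
    positivity
  · set s : ℝ := (cay ζ).im with hs
    have h1' : (1:ℂ) - ζ ≠ 0 := fun h => h1 (by linear_combination -h)
    have hc : cay ζ = I * s := by
      apply Complex.ext
      · rw [cay_re, hζ]; simp
      · simp [hs]
    have hζs : ζ = (I * s - 1) / (I * s + 1) := by
      rw [← hc]
      unfold cay
      have h2 : (1 + ζ) / (1 - ζ) + 1 = 2 / (1 - ζ) := by field_simp; ring
      have h3 : (1 + ζ) / (1 - ζ) - 1 = 2 * ζ / (1 - ζ) := by field_simp; ring
      rw [h2, h3]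
      field_simp
    have hIs : I * (s:ℂ) + 1 ≠ 0 := by
      intro h
      have := congrArg Complex.re h
      simp at this
    have hk : ∀ u : ℂ, ‖u‖ < 1 → ker ζ u = (1 - I * s * cay u) / (cay u - I * s) := by
      intro u hu
      have hu1 := one_sub_ne hu
      have hne : cay u - I * s ≠ 0 := by
        intro h
        have := congrArg Complex.re h
        simp at this
        linarith [cay_re_pos hu]
      have hk1 := ker_ne hζ hu
      unfold ker
      rw [div_eq_div_iff hk1 hne]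
      unfold cay
      rw [hζs]
      field_simp
      ring
    have hL : ∀ u : ℂ, ‖u‖ < 1 → HasDerivAt (prim s) (ker ζ u) (cay u) := by
      intro u hu
      have hre : 0 < (cay u - I * s).re := by simpa using cay_re_pos hu
      have hne : cay u - I * s ≠ 0 := by
        intro h
        rw [h] at hre
        simp at hre
      have hsl : cay u - I * s ∈ slitPlane := Or.inl hre
      have h2 := (((hasDerivAt_id (cay u)).sub_const (I * s)).clog hsl).const_mul
        (1 + (s:ℂ) ^ 2)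
      have h3 := h2.sub ((hasDerivAt_id (cay u)).const_mul (I * s))
      refine h3.congr_deriv ?_
      rw [hk u hu]
      simp only [id, mul_one, mul_one_div]
      rw [div_sub' hne]
      congr 1
      linear_combination ((s:ℂ) ^ 2) * I_sq
    rw [kint_eq_sub hζ hw hL, hk w hw]
    exact kernel_nonneg s hx

end Q73.Semi
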