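import Pool.Agent.Q73.Semi.Essential

/-!
# Koenigs functions and the comparison of the orthogonal speeds
-/

set_option autoImplicit false

open Complex Metric Set Filter Topology

namespace Q73.Semi

/-- `h` is a Koenigs function of the semigroup `φ`: it is univalent in the disc and
`h(φ_t(z)) = h(z) + it` for all `z` in the disc and `t ≥ 0`. -/
structure IsKoenigs (φ : ℝ → ℂ → ℂ) (h : ℂ → ℂ) : Prop where
  holomorphic : DifferentiableOn ℂ h Disc
  injective : InjOn h Disc
  functional : ∀ t : ℝ, 0 ≤ t → ∀ z ∈ Disc, h (φ t z) = h z + t * I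

variable {φ ψ : ℝ → ℂ → ℂ} {τ σ : ℂ} {h g : ℂ → ℂ}

/-- If `h(𝔻) ⊆ g(𝔻)` for the Koenigs functions, then the orthogonal speeds satisfy
`v^o(t) ≥ ṽ^o(t) - C`. -/
theorem orthogonalSpeed_compare (hφ : IsSemigroup φ) (hψ : IsSemigroup ψ)
    (hτ : IsDenjoyWolff φ τ) (hσ : IsDenjoyWolff ψ σ) (hh : IsKoenigs φ h) (hg : IsKoenigs ψ g)
    (hsub : h '' Disc ⊆ g '' Disc) :
    ∃ C : ℝ, ∀ t, 0 ≤ t → orthogonalSpeed ψ σ t - C ≤ orthogonalSpeed φ τ t := by
  have hF := rot_isDW hφ hτ
  have hE := rot_isDW hψ hσ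
  have hτ1 := hτ.1
  have hσ1 := hσ.1
  have hcτ := conj_mul_self hτ1
  have hcσ := conj_mul_self hσ1
  have hopen : IsOpen Disc := by rw [disc_eq]; exact isOpen_ball
  have hmem : ∀ {w : ℂ}, w ∈ ball (0:ℂ) 1 → τ * w ∈ Disc := by
    intro w hw
    show ‖τ * w‖ < 1
    rw [norm_mul_unit hτ1]
    simpa using hw
  have himg : ∀ {w : ℂ}, w ∈ ball (0:ℂ) 1 → h (τ * w) ∈ g '' Disc := fun hw =>
    hsub (mem_image_of_mem h (hmem hw))
  set k : ℂ → ℂ := fun w => (starRingEnd ℂ) σ * Function.invFunOn g Disc (h (τ * w)) with hk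
  have hinv : ∀ {w : ℂ}, w ∈ ball (0:ℂ) 1 → Function.invFunOn g Disc (h (τ * w)) ∈ Disc :=
    fun hw => Function.invFunOn_mem (himg hw)
  have hinv2 : ∀ {w : ℂ}, w ∈ ball (0:ℂ) 1 →
      g (Function.invFunOn g Disc (h (τ * w))) = h (τ * w) :=
    fun hw => Function.invFunOn_eq (himg hw)
  have hkd : DifferentiableOn ℂ k (ball 0 1) := by
    intro w hw
    apply DifferentiableAt.differentiableWithinAt
    apply DifferentiableAt.const_mul
    have h1 : DifferentiableAt ℂ (Function.invFunOn g Disc) (h (τ * w)) :=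
      Pool.Agent.Helper202.Univ.differentiableAt_inv hopen hg.holomorphic hg.injective (himg hw)
    have h2 : DifferentiableAt ℂ h (τ * w) :=
      hh.holomorphic.differentiableAt (hopen.mem_nhds (hmem hw))
    have h3 : DifferentiableAt ℂ (fun w => h (τ * w)) w :=
      DifferentiableAt.comp (f := fun w => τ * w) (g := h) w h2 (by fun_prop)
    exact DifferentiableAt.comp (f := fun w => h (τ * w)) (g := Function.invFunOn g Disc) w h1 h3
  have hkm : MapsTo k (ball 0 1) (ball 0 1) := by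
    intro w hw
    rw [mem_ball_zero_iff]
    simp only [hk]
    rw [norm_conj_mul hσ1]
    exact hinv hw
  have hki : InjOn k (ball 0 1) := by
    intro w hw w' hw' he
    simp only [hk] at he
    have hσ0 : (starRingEnd ℂ) σ ≠ 0 := left_ne_zero_of_mul (by rw [hcσ]; exact one_ne_zero)
    have hτ0 : τ ≠ 0 := right_ne_zero_of_mul (a := (starRingEnd ℂ) τ) (by rw [hcτ]; exact one_ne_zero)
    have h1 := mul_left_cancel₀ hσ0 he
    have h2 := congrArg g h1
    rw [hinv2 hw, hinv2 hw'] at h2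
    have h3 := hh.injective (hmem hw) (hmem hw') h2
    exact mul_left_cancel₀ hτ0 h3
  have hkF : ∀ t, 0 ≤ t → ∀ w ∈ ball (0:ℂ) 1, k (rot φ τ t w) = rot ψ σ t (k w) := by
    intro t ht w hw
    have hw2 : rot φ τ t w ∈ ball (0:ℂ) 1 := hF.flow.mapsTo t ht hw
    have e1 : τ * rot φ τ t w = φ t (τ * w) := by
      unfold rot
      rw [← mul_assoc, mul_comm τ, hcτ, one_mul]
    have e2 : σ * k w = Function.invFunOn g Disc (h (τ * w)) := by
      simp only [hk]
      rw [← mul_assoc, mul_comm σ, hcσ, one_mul]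
    have e3 : rot ψ σ t (k w) =
        (starRingEnd ℂ) σ * ψ t (Function.invFunOn g Disc (h (τ * w))) := by
      unfold rot
      rw [e2]
    rw [e3]
    show (starRingEnd ℂ) σ * Function.invFunOn g Disc (h (τ * rot φ τ t w)) = _
    congr 1
    apply hg.injective (hinv hw2) (hψ.mapsTo t ht (hinv hw))
    rw [hinv2 hw2, hg.functional t ht _ (hinv hw), hinv2 hw, e1, hh.functional t ht _ (hmem hw)]
  obtain ⟨C, hC, hb⟩ := hF.essential hE hkd hki hkm hkF
  refine ⟨1 / 2 * Real.log C, fun t ht => ?_⟩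
  rw [orthogonalSpeed_eq hφ hτ ht, orthogonalSpeed_eq hψ hσ ht]
  have h1 : 1 ≤ ‖orb (rot φ τ) t‖ := by
    have := hF.norm_orb_mono le_rfl ht
    rwa [hF.orb_zero, norm_one] at this
  have h2 : 1 ≤ ‖orb (rot ψ σ) t‖ := by
    have := hE.norm_orb_mono le_rfl ht
    rwa [hE.orb_zero, norm_one] at this
  have h3 := Real.log_le_log (by linarith) (hb t ht)
  rw [Real.log_mul hC.ne' (by linarith)] at h3
  linarith

end Q73.Semi
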