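import Mathlib

/-!
# A length-area estimate on the strip
-/

set_option autoImplicit false

open Complex Metric MeasureTheory Set Filter Topology
open scoped ENNReal

namespace Q73.Semi

open scoped Real

/-- the strip `|Im u| < π/2` -/
def Strip : Set ℂ := {u | |u.im| < π / 2}

lemma isOpen_strip : IsOpen Strip :=
  isOpen_lt (continuous_abs.comp Complex.continuous_im) continuous_const

lemma det_smul_one (c : ℂ) : (c • (1 : ℂ →L[ℝ] ℂ)).det = ‖c‖ ^ 2 := by
  have h : ((c • (1 : ℂ →L[ℝ] ℂ) : ℂ →L[ℝ] ℂ) : ℂ →ₗ[ℝ] ℂ) = Algebra.lmul ℝ ℂ c := by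
    ext <;> simp
  unfold ContinuousLinearMap.det
  rw [h, ← Algebra.norm_apply, Algebra.norm_complex_apply, Complex.normSq_eq_norm_sq]

lemma volume_rect (a b c d : ℝ) :
    volume (Icc a b ×ℂ Icc c d) = ENNReal.ofReal (b - a) * ENNReal.ofReal (d - c) := by
  have h : (Icc a b ×ℂ Icc c d) =
      Complex.measurableEquivRealProd ⁻¹' (Icc a b ×ˢ Icc c d) := by
    ext z
    simp only [Complex.mem_reProdIm, mem_preimage, Complex.measurableEquivRealProd_apply,
      mem_prod]
  rw [h, Complex.volume_preserving_equiv_real_prod.measure_preimage_equiv,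
    Measure.volume_eq_prod, Measure.prod_prod, Real.volume_Icc, Real.volume_Icc]

lemma area_le {G : ℂ → ℂ} {S : Set ℂ} (hS : IsOpen S) (hG : DifferentiableOn ℂ G S)
    (hinj : InjOn G S) {L : ℝ}
    (himg : ∀ u ∈ S, G u ∈ (Icc 0 L ×ℂ Icc (-(π / 2)) (π / 2))) :
    ∫⁻ u in S, ENNReal.ofReal (‖deriv G u‖ ^ 2) ≤ ENNReal.ofReal L * ENNReal.ofReal π := by
  have h1 : ∀ u ∈ S, HasFDerivWithinAt G (deriv G u • (1 : ℂ →L[ℝ] ℂ)) S u := by
    intro u hu
    have := (hG.differentiableAt (hS.mem_nhds hu)).hasDerivAt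
    exact (this.complexToReal_fderiv).hasFDerivWithinAt
  have h2 := lintegral_abs_det_fderiv_eq_addHaar_image volume hS.measurableSet h1 hinj
  have h3 : ∀ u, ENNReal.ofReal |(deriv G u • (1 : ℂ →L[ℝ] ℂ)).det| =
      ENNReal.ofReal (‖deriv G u‖ ^ 2) := by
    intro u
    rw [det_smul_one, abs_of_nonneg (by positivity)]
  simp only [h3] at h2
  rw [h2]
  have h4 : volume (G '' S) ≤ volume (Icc 0 L ×ℂ Icc (-(π / 2)) (π / 2)) := by
    apply measure_mono
    rintro _ ⟨u, hu, rfl⟩
    exact himg u hu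
  rw [volume_rect] at h4
  convert h4 using 3
  · ring
  · ring

lemma path_le {G : ℂ → ℂ} (hG : DifferentiableOn ℂ G Strip) (s : ℝ) {θ : ℝ} (hθ : |θ| < π / 2) :
    ENNReal.ofReal ‖G (s + θ * I) - G s‖ ≤
      ∫⁻ x in Ioo (-(π / 2)) (π / 2), ‖deriv G (s + x * I)‖ₑ := by
  have hmem : ∀ x : ℝ, |x| < π / 2 → ((s:ℂ) + x * I) ∈ Strip := by
    intro x hx
    simp only [Strip, mem_ofPred_eq]
    simpa using hx
  have hmem' : ∀ x ∈ uIcc 0 θ, |x| < π / 2 := by
    intro x hx
    have h1 : |x| ≤ |θ| := by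
      rcases le_total 0 θ with h | h
      · rw [uIcc_of_le h] at hx
        rw [abs_of_nonneg hx.1, abs_of_nonneg h]; exact hx.2
      · rw [uIcc_of_ge h] at hx
        rw [abs_of_nonpos hx.2, abs_of_nonpos h]; linarith [hx.1]
    linarith
  have hd : ∀ x ∈ uIcc 0 θ, HasDerivAt (fun x : ℝ => G (s + x * I)) (deriv G (s + x * I) * I) x := by
    intro x hx
    have h1 := (hG.differentiableAt (isOpen_strip.mem_nhds (hmem x (hmem' x hx)))).hasDerivAt
    have h2 : HasDerivAt (fun x : ℝ => (s:ℂ) + x * I) I x := by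
      have := ((Complex.ofRealCLM.hasDerivAt (x := x)).mul_const I).const_add (s:ℂ)
      simpa using this
    exact h1.comp x h2
  have hdc : ContinuousOn (deriv G) Strip :=
    (hG.deriv isOpen_strip).continuousOn
  have hc : ContinuousOn (fun x : ℝ => deriv G (s + x * I) * I) (uIcc 0 θ) := by
    apply ContinuousOn.mul _ continuousOn_const
    apply hdc.comp (by fun_prop)
    intro x hx
    exact hmem x (hmem' x hx)
  have h1 := intervalIntegral.integral_eq_sub_of_hasDerivAt hd (hc.intervalIntegrable)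
  simp only [ofReal_zero, zero_mul, add_zero] at h1
  rw [← h1, intervalIntegral.norm_intervalIntegral_eq, ofReal_norm]
  calc ‖∫ x in uIoc 0 θ, deriv G (s + x * I) * I‖ₑ
      ≤ ∫⁻ x in uIoc 0 θ, ‖deriv G (s + x * I) * I‖ₑ := enorm_integral_le_lintegral_enorm _
    _ = ∫⁻ x in uIoc 0 θ, ‖deriv G (s + x * I)‖ₑ := by
        congr 1
        funext x
        have hI : ‖I‖ₑ = 1 := by rw [← ofReal_norm, Complex.norm_I, ENNReal.ofReal_one]
        rw [enorm_mul, hI, mul_one]
    _ ≤ _ := by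
        apply lintegral_mono_set
        intro x hx
        have := hmem' x (uIoc_subset_uIcc hx)
        exact abs_lt.1 this

/-- **Length-area estimate.** -/
theorem length_area {G : ℂ → ℂ} (hG : DifferentiableOn ℂ G Strip) (hinj : InjOn G Strip)
    {L a D : ℝ} (hL : 0 ≤ L) (hD0 : 0 ≤ D)
    (himg : ∀ u ∈ Strip, G u ∈ (Icc 0 L ×ℂ Icc (-(π / 2)) (π / 2)))
    (hD : ∀ s ∈ Icc a (a + Real.log 2), ∃ θ : ℝ, |θ| < π / 2 ∧ D ≤ ‖G (s + θ * I) - G s‖) :
    D * Real.log 2 ≤ Real.log 2 / 2 * L + π ^ 2 / 2 := by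
  have hlog : 0 < Real.log 2 := Real.log_pos (by norm_num)
  have hpi := Real.pi_pos
  have hmeas : Measurable (fun p : ℝ × ℝ => deriv G (p.1 + p.2 * I)) := by
    apply (measurable_deriv G).comp
    fun_prop
  -- step 1 and 2
  have h1 : ENNReal.ofReal D * ENNReal.ofReal (Real.log 2) ≤
      ∫⁻ s in Icc a (a + Real.log 2), ∫⁻ x in Ioo (-(π / 2)) (π / 2), ‖deriv G (s + x * I)‖ₑ := by
    have h2 : ENNReal.ofReal D * ENNReal.ofReal (Real.log 2) =
        ∫⁻ s in Icc a (a + Real.log 2), ENNReal.ofReal D := by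
      rw [lintegral_const, Measure.restrict_apply MeasurableSet.univ, univ_inter,
        Real.volume_Icc, add_sub_cancel_left]
    rw [h2]
    apply setLIntegral_mono' measurableSet_Icc
    intro s hs
    obtain ⟨θ, hθ, hle⟩ := hD s hs
    exact (ENNReal.ofReal_le_ofReal hle).trans (path_le hG s hθ)
  -- step 3
  set lam : ℝ := Real.log 2 / π with hlam
  have hlam0 : 0 < lam := by positivity
  have h3 : ∀ c : ℂ, ‖c‖ₑ ≤ ENNReal.ofReal (lam / 2) * ENNReal.ofReal (‖c‖ ^ 2) +
      ENNReal.ofReal (1 / (2 * lam)) := by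
    intro c
    rw [← ofReal_norm, ← ENNReal.ofReal_mul (by positivity),
      ← ENNReal.ofReal_add (by positivity) (by positivity)]
    apply ENNReal.ofReal_le_ofReal
    have h4 : 0 ≤ (lam * ‖c‖ - 1) ^ 2 / (2 * lam) := by positivity
    have h5 : (lam * ‖c‖ - 1) ^ 2 / (2 * lam) = lam / 2 * ‖c‖ ^ 2 + 1 / (2 * lam) - ‖c‖ := by
      field_simp
      ring
    linarith
  have h4 : ∫⁻ s in Icc a (a + Real.log 2), ∫⁻ x in Ioo (-(π / 2)) (π / 2),
      ‖deriv G (s + x * I)‖ₑ ≤
      ∫⁻ p in (Icc a (a + Real.log 2)) ×ˢ (Ioo (-(π / 2)) (π / 2)),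
        (ENNReal.ofReal (lam / 2) * ENNReal.ofReal (‖deriv G ((p.1:ℂ) + (p.2:ℂ) * I)‖ ^ 2) +
          ENNReal.ofReal (1 / (2 * lam))) := by
    rw [Measure.volume_eq_prod, ← Measure.prod_restrict, lintegral_prod]
    · apply lintegral_mono
      intro s
      apply lintegral_mono
      intro x
      exact h3 _
    · apply Measurable.aemeasurable
      apply Measurable.add_const
      apply Measurable.const_mul
      exact (hmeas.norm.pow_const 2).ennreal_ofReal
  -- step 4
  have h5 : ∫⁻ p in (Icc a (a + Real.log 2)) ×ˢ (Ioo (-(π / 2)) (π / 2)),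
        ENNReal.ofReal (‖deriv G ((p.1:ℂ) + (p.2:ℂ) * I)‖ ^ 2) ≤
        ENNReal.ofReal L * ENNReal.ofReal π := by
    refine le_trans ?_ (area_le isOpen_strip hG hinj himg)
    have e : ∫⁻ u in Strip, ENNReal.ofReal (‖deriv G u‖ ^ 2) =
        ∫⁻ p in (Complex.measurableEquivRealProd.symm ⁻¹' Strip),
          ENNReal.ofReal (‖deriv G ((p.1:ℂ) + (p.2:ℂ) * I)‖ ^ 2) := by
      have h6 := (Complex.volume_preserving_equiv_real_prod.symm
        Complex.measurableEquivRealProd).setLIntegral_comp_preimage_emb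
        (Complex.measurableEquivRealProd.symm.measurableEmbedding)
        (fun u => ENNReal.ofReal (‖deriv G u‖ ^ 2)) Strip
      rw [← h6]
      apply lintegral_congr
      intro p
      have e2 : Complex.measurableEquivRealProd.symm p = (p.1:ℂ) + (p.2:ℂ) * I := by
        apply Complex.ext <;> simp [Complex.measurableEquivRealProd]
      rw [e2]
    rw [e]
    apply lintegral_mono_set
    rintro ⟨s, x⟩ ⟨-, hx⟩
    simp only [mem_preimage, Strip, mem_ofPred_eq]
    have e2 : Complex.measurableEquivRealProd.symm (s, x) = (s:ℂ) + (x:ℂ) * I := by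
      apply Complex.ext <;> simp [Complex.measurableEquivRealProd]
    rw [e2]
    simpa [abs_lt] using hx
  have h6 : ENNReal.ofReal D * ENNReal.ofReal (Real.log 2) ≤
      ENNReal.ofReal (lam / 2) * (ENNReal.ofReal L * ENNReal.ofReal π) +
        ENNReal.ofReal (1 / (2 * lam)) * (ENNReal.ofReal (Real.log 2) * ENNReal.ofReal π) := by
    refine h1.trans (h4.trans ?_)
    rw [lintegral_add_right _ measurable_const, lintegral_const_mul]
    · apply add_le_add
      · gcongr
      · rw [lintegral_const, Measure.restrict_apply MeasurableSet.univ, univ_inter,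
          Measure.volume_eq_prod, Measure.prod_prod, Real.volume_Icc, Real.volume_Ioo]
        apply le_of_eq
        congr 3
        · ring
        · ring
    · exact (hmeas.norm.pow_const 2).ennreal_ofReal
  rw [← ENNReal.ofReal_mul hD0, ← ENNReal.ofReal_mul hL, ← ENNReal.ofReal_mul (by positivity),
    ← ENNReal.ofReal_mul (by positivity), ← ENNReal.ofReal_mul (by positivity),
    ← ENNReal.ofReal_add (by positivity) (by positivity),
    ENNReal.ofReal_le_ofReal_iff (by positivity)] at h6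
  have h7 : lam / 2 * (L * π) = Real.log 2 / 2 * L := by
    rw [hlam]; field_simp
  have h8 : 1 / (2 * lam) * (Real.log 2 * π) = π ^ 2 / 2 := by
    rw [hlam]; field_simp
  rw [h7, h8] at h6
  exact h6

end Q73.Semi
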