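import Pool.Agent.Q73.Semi.Herglotz
import Pool.Agent.Q73.Semi.Generator
import Pool.Agent.H809R3.T5

/-!
# Monotonicity of `|cay (F_t 0)|` along the orbit
-/

set_option autoImplicit false

open Complex Metric MeasureTheory Set Filter Topology

namespace Q73.Semi

/-- a continuous semigroup of the disc whose orbit of `0` tends to `1` -/
structure IsDW (F : ℝ → ℂ → ℂ) : Prop where
  flow : IsFlow (ball 0 1) F
  tends : Tendsto (fun t => F t 0) atTop (𝓝 1)

variable {F : ℝ → ℂ → ℂ}

lemma IsDW.norm_lt (hF : IsDW F) {t : ℝ} (ht : 0 ≤ t) {w : ℂ} (hw : ‖w‖ < 1) : ‖F t w‖ < 1 := by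
  have := hF.flow.mapsTo t ht (x := w) (by simpa using hw)
  simpa using this

/-- **Julia's lemma** for the semigroup. -/
lemma IsDW.julia (hF : IsDW F) {t : ℝ} (ht : 0 ≤ t) {w : ℂ} (hw : ‖w‖ < 1) :
    (cay w).re ≤ (cay (F t w)).re := by
  rcases ht.eq_or_lt with h0 | h0
  · rw [← h0, hF.flow.zero w (by simpa using hw)]
  set a : ℕ → ℂ := fun n => F (n * t) 0 with ha
  have hz1 : ‖(0:ℂ)‖ < 1 := by simp
  have han : ∀ n, ‖a n‖ < 1 := fun n => hF.norm_lt (by positivity) hz1
  have hat : Tendsto a atTop (𝓝 1) := by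
    apply hF.tends.comp
    exact tendsto_natCast_atTop_atTop.atTop_mul_const h0
  have hstep : ∀ n, a (n + 1) = F t (a n) := by
    intro n
    have := hF.flow.add t (n * t) ht (by positivity) 0 (by simp)
    simp only [ha]
    rw [← this]
    congr 1
    push_cast
    ring
  set D : ℕ → ℝ := fun n => (1 - ‖F t w‖ ^ 2) / ‖1 - (starRingEnd ℂ) (a (n + 1)) * F t w‖ ^ 2 -
    (1 - ‖w‖ ^ 2) / ‖1 - (starRingEnd ℂ) (a n) * w‖ ^ 2 with hD
  have hfw := hF.norm_lt ht hw
  have hpos1 : ∀ {u v : ℂ}, ‖u‖ < 1 → ‖v‖ < 1 → 0 < ‖1 - (starRingEnd ℂ) u * v‖ := by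
    intro u v hu hv
    rw [norm_pos_iff]
    intro h
    have h1 : (starRingEnd ℂ) u * v = 1 := (sub_eq_zero.1 h).symm
    have h2 := congrArg norm h1
    rw [norm_mul, Complex.norm_conj, norm_one] at h2
    nlinarith [norm_nonneg u, norm_nonneg v]
  have hsq : ∀ {u : ℂ}, ‖u‖ < 1 → 0 < 1 - ‖u‖ ^ 2 := by
    intro u hu
    nlinarith [norm_nonneg u]
  -- `D n ≥ 0` whenever the defect decreases
  have hDn : ∀ n, 1 - ‖a (n + 1)‖ ^ 2 ≤ 1 - ‖a n‖ ^ 2 → 0 ≤ D n := by
    intro n hn
    have hsp := H809R3.T.schwarz_pick (F t) (hF.flow.holo t ht)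
      (fun z hz => hF.norm_lt ht hz) w (a n) hw (han n)
    rw [← hstep n] at hsp
    have p1 := hpos1 (han (n + 1)) hfw
    have p2 := hpos1 (han n) hw
    have q1 := hsq (han n)
    have q2 := hsq (han (n + 1))
    have q3 := hsq hw
    have q4 := hsq hfw
    simp only [hD]
    rw [sub_nonneg, div_le_div_iff₀ (by positivity) (by positivity)]
    have h5 : (1 - ‖w‖ ^ 2) * ‖1 - (starRingEnd ℂ) (a (n + 1)) * F t w‖ ^ 2 * (1 - ‖a n‖ ^ 2) ≤
        (1 - ‖F t w‖ ^ 2) * ‖1 - (starRingEnd ℂ) (a n) * w‖ ^ 2 * (1 - ‖a n‖ ^ 2) := by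
      calc (1 - ‖w‖ ^ 2) * ‖1 - (starRingEnd ℂ) (a (n + 1)) * F t w‖ ^ 2 * (1 - ‖a n‖ ^ 2)
          = ‖1 - (starRingEnd ℂ) (a (n + 1)) * F t w‖ ^ 2 * ((1 - ‖w‖ ^ 2) * (1 - ‖a n‖ ^ 2)) := by
            ring
        _ ≤ ‖1 - (starRingEnd ℂ) (a n) * w‖ ^ 2 * ((1 - ‖F t w‖ ^ 2) * (1 - ‖a (n + 1)‖ ^ 2)) := hsp
        _ ≤ ‖1 - (starRingEnd ℂ) (a n) * w‖ ^ 2 * ((1 - ‖F t w‖ ^ 2) * (1 - ‖a n‖ ^ 2)) := by
            gcongr
        _ = _ := by ring
    exact le_of_mul_le_mul_right h5 q1
  -- frequently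
  have hfreq : ∃ᶠ n in atTop, 0 ≤ D n := by
    rw [Filter.frequently_atTop]
    intro N
    by_contra hcon
    push Not at hcon
    have hinc : ∀ n, N ≤ n → 1 - ‖a n‖ ^ 2 < 1 - ‖a (n + 1)‖ ^ 2 := by
      intro n hn
      by_contra hc
      rw [not_lt] at hc
      exact absurd (hDn n hc) (not_le.2 (hcon n hn))
    have hge : ∀ n, N ≤ n → 1 - ‖a N‖ ^ 2 ≤ 1 - ‖a n‖ ^ 2 := by
      intro n hn
      induction n, hn using Nat.le_induction with
      | base => exact le_rfl
      | succ k hk ih => exact ih.trans (hinc k hk).le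
    have hlim : Tendsto (fun n => 1 - ‖a n‖ ^ 2) atTop (𝓝 (1 - ‖(1:ℂ)‖ ^ 2)) :=
      ((hat.norm).pow 2).const_sub 1
    have h6 : 1 - ‖a N‖ ^ 2 ≤ 1 - ‖(1:ℂ)‖ ^ 2 :=
      ge_of_tendsto hlim (eventually_atTop.2 ⟨N, hge⟩)
    simp at h6
    have := hsq (han N)
    linarith [han N]
  -- limit of `D`
  have hne1 : ‖1 - (starRingEnd ℂ) 1 * F t w‖ ^ 2 ≠ 0 := by
    simp only [map_one, one_mul]
    exact pow_ne_zero 2 (norm_ne_zero_iff.2 (one_sub_ne hfw))
  have hne2 : ‖1 - (starRingEnd ℂ) 1 * w‖ ^ 2 ≠ 0 := by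
    simp only [map_one, one_mul]
    exact pow_ne_zero 2 (norm_ne_zero_iff.2 (one_sub_ne hw))
  have hcj : Tendsto (fun n => (starRingEnd ℂ) (a n)) atTop (𝓝 ((starRingEnd ℂ) 1)) :=
    (Complex.continuous_conj.tendsto _).comp hat
  have hlim : Tendsto D atTop (𝓝 ((1 - ‖F t w‖ ^ 2) / ‖1 - (starRingEnd ℂ) 1 * F t w‖ ^ 2 -
      (1 - ‖w‖ ^ 2) / ‖1 - (starRingEnd ℂ) 1 * w‖ ^ 2)) := by
    apply Tendsto.sub
    · apply tendsto_const_nhds.div _ hne1
      exact ((((hcj.comp (tendsto_add_atTop_nat 1)).mul_const _).const_sub 1).norm).pow 2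
    · apply tendsto_const_nhds.div _ hne2
      exact (((hcj.mul_const _).const_sub 1).norm).pow 2
  have hfin : 0 ≤ (1 - ‖F t w‖ ^ 2) / ‖1 - (starRingEnd ℂ) 1 * F t w‖ ^ 2 -
      (1 - ‖w‖ ^ 2) / ‖1 - (starRingEnd ℂ) 1 * w‖ ^ 2 := by
    by_contra hcon
    rw [not_le] at hcon
    have h7 := hlim.eventually (gt_mem_nhds hcon)
    obtain ⟨n, hn1, hn2⟩ := (hfreq.and_eventually h7).exists
    linarith
  rw [cay_re, cay_re]
  simp only [map_one, one_mul] at hfin
  linarith

/-- The velocity in the half plane, as a function on the disc. -/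
noncomputable def vel (G : ℂ → ℂ) (w : ℂ) : ℂ := 2 / (1 - w) ^ 2 * G w

lemma vel_diff {G : ℂ → ℂ} (hG : DifferentiableOn ℂ G (ball 0 1)) :
    DifferentiableOn ℂ (vel G) (ball 0 1) := by
  unfold vel
  apply DifferentiableOn.mul _ hG
  apply DifferentiableOn.div (by fun_prop) (by fun_prop)
  intro w hw
  exact pow_ne_zero 2 (one_sub_ne (by simpa using hw))

/-- right derivative of the orbit in the half plane -/
lemma cay_orbit_deriv (hF : IsDW F) {G : ℂ → ℂ}
    (hG : ∀ z ∈ ball (0:ℂ) 1, ∀ t : ℝ, 0 ≤ t →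
      HasDerivWithinAt (fun t => F t z) (G (F t z)) (Ici t) t)
    {w : ℂ} (hw : ‖w‖ < 1) {t : ℝ} (ht : 0 ≤ t) :
    HasDerivWithinAt (fun t => cay (F t w)) (vel G (F t w)) (Ici t) t := by
  have h1 := hG w (by simpa using hw) t ht
  have h2 := (hasDerivAt_cay (one_sub_ne (hF.norm_lt ht hw))).comp_hasDerivWithinAt t h1
  exact h2

lemma vel_re_nonneg (hF : IsDW F) {G : ℂ → ℂ}
    (hG : ∀ z ∈ ball (0:ℂ) 1, ∀ t : ℝ, 0 ≤ t →
      HasDerivWithinAt (fun t => F t z) (G (F t z)) (Ici t) t)
    {w : ℂ} (hw : ‖w‖ < 1) : 0 ≤ (vel G w).re := by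
  have hw' : w ∈ ball (0:ℂ) 1 := by simpa using hw
  have h1 := cay_orbit_deriv hF hG hw le_rfl
  rw [hF.flow.zero w hw'] at h1
  have h2 : HasDerivWithinAt (fun t => (cay (F t w)).re) (vel G w).re (Ici 0) 0 := by
    have := Complex.reCLM.hasFDerivAt.comp_hasDerivWithinAt (0:ℝ) h1
    simpa [Function.comp_def] using this
  have h3 := hasDerivWithinAt_iff_tendsto_slope.1 h2
  have h4 : (𝓝[Ici (0:ℝ) \ {0}] 0).NeBot := by
    have : Ici (0:ℝ) \ {0} = Ioi 0 := by
      ext x
      simp only [mem_diff, mem_Ici, mem_singleton_iff, mem_Ioi]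
      exact ⟨fun h => lt_of_le_of_ne h.1 (Ne.symm h.2), fun h => ⟨h.le, h.ne'⟩⟩
    rw [this]
    infer_instance
  apply ge_of_tendsto h3
  filter_upwards [self_mem_nhdsWithin] with t ht
  have ht0 : 0 < t := lt_of_le_of_ne ht.1 (Ne.symm ht.2)
  rw [slope_def_field, hF.flow.zero w hw']
  have := hF.julia ht0.le hw
  apply div_nonneg (by linarith) (by linarith)

/-- a continuous function with nonnegative right derivative is nondecreasing -/
lemma mono_of_right_deriv {f f' : ℝ → ℝ} (hf : ContinuousOn f (Ici 0))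
    (hd : ∀ t, 0 ≤ t → HasDerivWithinAt f (f' t) (Ici t) t) (hn : ∀ t, 0 ≤ t → 0 ≤ f' t)
    {s t : ℝ} (hs : 0 ≤ s) (hst : s ≤ t) : f s ≤ f t := by
  have h1 : ContinuousOn (fun x => -f x) (Icc s t) :=
    (hf.mono (fun x hx => hs.trans hx.1)).neg
  have := image_le_of_deriv_right_le_deriv_boundary (f := fun x => -f x) (f' := fun x => -f' x)
    (a := s) (b := t) h1 (fun x hx => (hd x (hs.trans hx.1)).neg) (B := fun _ => -f s)
    (B' := fun _ => 0) le_rfl continuousOn_const
    (fun x _ => hasDerivWithinAt_const _ _ _)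
    (fun x hx => by have := hn x (hs.trans hx.1); linarith)
    (right_mem_Icc.2 hst)
  linarith

/-- the orbit of `0` in the half plane -/
noncomputable def orb (F : ℝ → ℂ → ℂ) (t : ℝ) : ℂ := cay (F t 0)

lemma IsDW.orb_zero (hF : IsDW F) : orb F 0 = 1 := by
  unfold orb
  rw [hF.flow.zero 0 (by simp), cay_zero]

lemma IsDW.orb_continuousOn (hF : IsDW F) : ContinuousOn (orb F) (Ici 0) := by
  have h1 := hF.flow.continuousOn_orbit isOpen_ball (z := 0) (by simp)
  intro t ht
  have h2 := hF.norm_lt ht (w := 0) (by simp)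
  exact ContinuousAt.comp_continuousWithinAt (f := fun t => F t 0) (g := cay)
    (hasDerivAt_cay (one_sub_ne h2)).continuousAt (h1 t ht)

lemma IsDW.orb_re_mono (hF : IsDW F) {s t : ℝ} (hs : 0 ≤ s) (hst : s ≤ t) :
    (orb F s).re ≤ (orb F t).re := by
  have h1 := hF.julia (t := t - s) (by linarith) (hF.norm_lt hs (w := 0) (by simp))
  have h2 := hF.flow.add (t - s) s (by linarith) hs 0 (by simp)
  rw [sub_add_cancel] at h2
  unfold orb
  rw [h2]
  exact h1

lemma IsDW.one_le_orb_re (hF : IsDW F) {t : ℝ} (ht : 0 ≤ t) : 1 ≤ (orb F t).re := by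
  have := hF.orb_re_mono le_rfl ht
  rwa [hF.orb_zero, one_re] at this

/-- **Structure of the orbit**: either the orbit is `1 + iβt`, or there is a holomorphic function
`P` with positive real part such that `P · z' = 1` along the orbit `z`, together with a primitive. -/
lemma IsDW.structure (hF : IsDW F) :
    (∃ β : ℝ, ∀ t, 0 ≤ t → orb F t = 1 + I * β * t) ∨
    ∃ (c P K : ℂ → ℂ), DifferentiableOn ℂ P (ball 0 1) ∧ (∀ w, ‖w‖ < 1 → 0 < (c w).re) ∧
      (∀ w, ‖w‖ < 1 → 0 < (P w).re) ∧
      (∀ w, ‖w‖ < 1 → P w * c w = 1) ∧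
      (∀ t, 0 ≤ t → HasDerivWithinAt (orb F) (c (F t 0)) (Ici t) t) ∧
      (∀ w, ‖w‖ < 1 → HasDerivAt K (P w * (2 / (1 - w) ^ 2)) w) ∧
      (∀ t, 0 ≤ t → K (F t 0) - K 0 = t) := by
  obtain ⟨G, hGd, hG⟩ := hF.flow.generator isOpen_ball
  have hvd := vel_diff hGd
  have hre : ∀ w, ‖w‖ < 1 → 0 ≤ (vel G w).re := fun w hw => vel_re_nonneg hF hG hw
  have hder : ∀ t, 0 ≤ t → HasDerivWithinAt (orb F) (vel G (F t 0)) (Ici t) t := fun t ht =>
    cay_orbit_deriv hF hG (w := 0) (by simp) ht
  by_cases hcase : ∃ w₀ : ℂ, ‖w₀‖ < 1 ∧ (vel G w₀).re = 0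
  · -- the velocity is constant
    left
    obtain ⟨w₀, hw₀, h0⟩ := hcase
    have han : AnalyticOnNhd ℂ (vel G) (ball 0 1) := hvd.analyticOnNhd isOpen_ball
    have hconst : ∃ c, ∀ w ∈ ball (0:ℂ) 1, vel G w = c := by
      rcases han.is_constant_or_isOpen (convex_ball (0:ℂ) 1).isPreconnected with h | h
      · exact h
      · exfalso
        have ho := h (ball 0 1) subset_rfl isOpen_ball
        have hmem : vel G w₀ ∈ vel G '' ball 0 1 := ⟨w₀, by simpa using hw₀, rfl⟩
        obtain ⟨ε, hε, hb⟩ := Metric.isOpen_iff.1 ho _ hmem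
        have h1 : vel G w₀ - ((ε / 2 : ℝ) : ℂ) ∈ ball (vel G w₀) ε := by
          rw [mem_ball, dist_eq_norm, sub_sub_cancel_left, norm_neg, Complex.norm_real,
            Real.norm_eq_abs, abs_of_pos (by positivity)]
          linarith
        obtain ⟨w, hw, hwe⟩ := hb h1
        have h2 := hre w (by simpa using hw)
        rw [hwe, sub_re, h0, ofReal_re] at h2
        linarith
    obtain ⟨c, hc⟩ := hconst
    have hcre : c.re = 0 := by rw [← hc w₀ (by simpa using hw₀), h0]
    refine ⟨c.im, fun t ht => ?_⟩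
    have hcI : c = I * (c.im : ℂ) := by
      apply Complex.ext
      · rw [hcre]; simp
      · simp
    have hd : ∀ x ∈ Ico (0:ℝ) t, HasDerivWithinAt (fun t : ℝ => orb F t - c * t) 0 (Ici x) x := by
      intro x hx
      have h1 := hder x hx.1
      rw [hc _ (by simpa using hF.norm_lt hx.1 (w := 0) (by simp))] at h1
      have h2 : HasDerivWithinAt (fun t : ℝ => c * (t:ℂ)) c (Ici x) x := by
        have := ((Complex.ofRealCLM.hasDerivAt (x := x)).const_mul c).hasDerivWithinAt (s := Ici x)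
        simpa using this
      have h3 := h1.sub h2
      rwa [sub_self] at h3
    have hcont : ContinuousOn (fun t : ℝ => orb F t - c * t) (Icc 0 t) :=
      (hF.orb_continuousOn.mono Icc_subset_Ici_self).sub (by fun_prop)
    have h4 := constant_of_has_deriv_right_zero hcont hd t ⟨ht, le_rfl⟩
    simp only [ofReal_zero, mul_zero, sub_zero, hF.orb_zero] at h4
    rw [← hcI]
    linear_combination h4
  · right
    push Not at hcase
    have hpos : ∀ w, ‖w‖ < 1 → 0 < (vel G w).re := fun w hw =>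
      lt_of_le_of_ne (hre w hw) (Ne.symm (hcase w hw))
    have hne : ∀ w, ‖w‖ < 1 → vel G w ≠ 0 := by
      intro w hw h
      have := hpos w hw
      rw [h] at this
      simp at this
    have hPd : DifferentiableOn ℂ (fun w => (vel G w)⁻¹) (ball 0 1) :=
      hvd.inv (fun w hw => hne w (by simpa using hw))
    have hQd : DifferentiableOn ℂ (fun w => (vel G w)⁻¹ * (2 / (1 - w) ^ 2)) (ball 0 1) := by
      apply hPd.mul
      apply DifferentiableOn.div (by fun_prop) (by fun_prop)
      intro w hw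
      exact pow_ne_zero 2 (one_sub_ne (by simpa using hw))
    obtain ⟨K, hK⟩ := hQd.isExactOn_ball
    refine ⟨vel G, fun w => (vel G w)⁻¹, K, hPd, hpos, ?_, ?_, hder, ?_, ?_⟩
    · intro w hw
      rw [inv_re]
      exact div_pos (hpos w hw) (Complex.normSq_pos.2 (hne w hw))
    · intro w hw
      exact inv_mul_cancel₀ (hne w hw)
    · intro w hw
      exact hK w (by simpa using hw)
    · intro t ht
      have hd : ∀ x ∈ Ico (0:ℝ) t, HasDerivWithinAt (fun t : ℝ => K (F t 0) - t) 0 (Ici x) x := by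
        intro x hx
        have hxw := hF.norm_lt hx.1 (w := 0) (by simp)
        have h1 := hG 0 (by simp) x hx.1
        have h2 := (hK (F x 0) (by simpa using hxw)).comp_hasDerivWithinAt x h1
        have h3 : HasDerivWithinAt (fun t : ℝ => (t:ℂ)) 1 (Ici x) x := by
          have := (hasDerivAt_id x).ofReal_comp.hasDerivWithinAt (s := Ici x)
          simpa using this
        have h4 := h2.sub h3
        have e : (vel G (F x 0))⁻¹ * (2 / (1 - F x 0) ^ 2) * G (F x 0) - 1 = 0 := by
          have h5 := hne _ hxw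
          have h6 : (vel G (F x 0))⁻¹ * (2 / (1 - F x 0) ^ 2) * G (F x 0) =
              (vel G (F x 0))⁻¹ * vel G (F x 0) := by
            unfold vel; ring
          rw [h6, inv_mul_cancel₀ h5, sub_self]
        rw [e] at h4
        exact h4
      have hcont : ContinuousOn (fun t : ℝ => K (F t 0) - t) (Icc 0 t) := by
        apply ContinuousOn.sub _ (by fun_prop)
        intro x hx
        have hxw := hF.norm_lt hx.1 (w := 0) (by simp)
        have h1 := hF.flow.continuousOn_orbit isOpen_ball (z := 0) (by simp)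
        exact ContinuousAt.comp_continuousWithinAt (f := fun t => F t 0) (g := K)
          (hK (F x 0) (by simpa using hxw)).continuousAt ((h1 x hx.1).mono Icc_subset_Ici_self)
      have h4 := constant_of_has_deriv_right_zero hcont hd t ⟨ht, le_rfl⟩
      simp only [ofReal_zero, sub_zero, hF.flow.zero 0 (by simp)] at h4
      rw [← h4]
      ring

/-- the path integral along the segment is the increment of the primitive -/
lemma path_int {P K : ℂ → ℂ} (hP : ContinuousOn P (ball 0 1))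
    (hK : ∀ w, ‖w‖ < 1 → HasDerivAt K (P w * (2 / (1 - w) ^ 2)) w) {w : ℂ} (hw : ‖w‖ < 1) :
    ∫ τ in (0:ℝ)..1, P (τ * w) * (2 / (1 - τ * w) ^ 2 * w) = K w - K 0 := by
  have hd : ∀ τ ∈ uIcc (0:ℝ) 1, HasDerivAt (fun τ : ℝ => K (τ * w))
      (P (τ * w) * (2 / (1 - τ * w) ^ 2 * w)) τ := by
    intro τ hτ
    rw [uIcc_of_le zero_le_one] at hτ
    have h1 := norm_tau_mul hw hτ
    have h2 : HasDerivAt (fun τ : ℝ => (τ:ℂ) * w) w τ := by
      simpa using (Complex.ofRealCLM.hasDerivAt (x := τ)).mul_const w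
    have h3 := (hK _ h1).comp_of_eq τ h2 rfl
    refine h3.congr_deriv ?_
    ring
  rw [intervalIntegral.integral_eq_sub_of_hasDerivAt hd]
  · simp
  · apply ContinuousOn.intervalIntegrable
    rw [uIcc_of_le zero_le_one]
    apply ContinuousOn.mul _ (continuousOn_wt hw)
    apply hP.comp (by fun_prop)
    intro τ hτ
    simpa using norm_tau_mul hw hτ

/-- **Main theorem**: `|z_t|` is nondecreasing along the orbit of `1` in the half plane. -/
theorem IsDW.norm_orb_mono (hF : IsDW F) {s t : ℝ} (hs : 0 ≤ s) (hst : s ≤ t) :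
    ‖orb F s‖ ≤ ‖orb F t‖ := by
  rcases hF.structure with ⟨β, hβ⟩ | ⟨c, P, K, hPd, hc, hP, hPc, hder, hK, hKt⟩
  · rw [hβ s hs, hβ t (hs.trans hst)]
    have e : ∀ x : ℝ, ‖(1 + I * β * x : ℂ)‖ ^ 2 = 1 + β ^ 2 * x ^ 2 := by
      intro x
      rw [← Complex.normSq_eq_norm_sq, Complex.normSq_apply]
      simp
      ring
    apply le_of_sq_le_sq _ (norm_nonneg _)
    rw [e, e]
    gcongr
  · -- the derivative of `|z|²`
    have hd : ∀ x, 0 ≤ x → HasDerivWithinAt (fun t => ‖orb F t‖ ^ 2)
        (2 * ((orb F x).re * (c (F x 0)).re + (orb F x).im * (c (F x 0)).im)) (Ici x) x := by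
      intro x hx
      have h1 := hder x hx
      have h2 : HasDerivWithinAt (fun t => (orb F t).re) (c (F x 0)).re (Ici x) x := by
        have := Complex.reCLM.hasFDerivAt.comp_hasDerivWithinAt x h1
        simpa [Function.comp_def] using this
      have h3 : HasDerivWithinAt (fun t => (orb F t).im) (c (F x 0)).im (Ici x) x := by
        have := Complex.imCLM.hasFDerivAt.comp_hasDerivWithinAt x h1
        simpa [Function.comp_def] using this
      have e : (fun t => ‖orb F t‖ ^ 2) = fun t => (orb F t).re * (orb F t).re +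
          (orb F t).im * (orb F t).im := by
        funext t
        rw [← Complex.normSq_eq_norm_sq, Complex.normSq_apply]
      rw [e]
      refine ((h2.mul h2).add (h3.mul h3)).congr_deriv ?_
      ring
    -- positivity
    have hpos : ∀ x, 0 ≤ x → 0 ≤ 2 * ((orb F x).re * (c (F x 0)).re +
        (orb F x).im * (c (F x 0)).im) := by
      intro x hx
      have hxw := hF.norm_lt hx (w := 0) (by simp)
      have hx1 := hF.one_le_orb_re hx
      rcases hx1.eq_or_lt with h1 | h1
      · -- only at time zero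
        have hx0 : x = 0 := by
          by_contra hne
          have hxp : 0 < x := lt_of_le_of_ne hx (Ne.symm hne)
          have hconst : ∀ y ∈ Icc 0 x, (orb F y).re = 1 := by
            intro y hy
            have h2 := hF.orb_re_mono hy.1 hy.2
            have h3 := hF.one_le_orb_re hy.1
            linarith
          have h4 := hder 0 le_rfl
          have h5 : HasDerivWithinAt (fun t => (orb F t).re) (c (F 0 0)).re (Ici 0) 0 := by
            have := Complex.reCLM.hasFDerivAt.comp_hasDerivWithinAt (0:ℝ) h4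
            simpa [Function.comp_def] using this
          have h6 : HasDerivWithinAt (fun t => (orb F t).re) 0 (Ici 0) 0 := by
            apply (hasDerivWithinAt_const (0:ℝ) (Ici (0:ℝ)) (1:ℝ)).congr_of_eventuallyEq
            · have : Iio x ∈ 𝓝 (0:ℝ) := Iio_mem_nhds hxp
              filter_upwards [nhdsWithin_le_nhds this, self_mem_nhdsWithin] with y hy1 hy2
              exact hconst y ⟨hy2, hy1.le⟩
            · exact hconst 0 ⟨le_rfl, hxp.le⟩
          have h7 := (uniqueDiffOn_Ici (0:ℝ) 0 self_mem_Ici).eq_deriv (Ici (0:ℝ)) h5 h6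
          have h8 := hc (F 0 0) (hF.norm_lt le_rfl (by simp))
          linarith
        subst hx0
        rw [hF.orb_zero]
        have := hc (F 0 0) (hF.norm_lt le_rfl (by simp))
        simp
        exact this.le
      · -- the functional
        have hPhi := Phi_nonneg hPd (fun ζ hζ => (hP ζ hζ).le) hxw hx1
        unfold Phi at hPhi
        rw [path_int hPd.continuousOn hK hxw, hKt x hx, ofReal_im, mul_zero, add_zero] at hPhi
        have h2 : 0 ≤ (orb F x * P (F x 0)).re := by
          have h3 : 0 < (cay (F x 0)).re - 1 := by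
            have : (orb F x).re = (cay (F x 0)).re := rfl
            linarith
          exact nonneg_of_mul_nonneg_right hPhi h3
        -- `P = conj c / |c|²`
        have h4 := hPc (F x 0) hxw
        have hcne : c (F x 0) ≠ 0 := by
          intro h
          rw [h, mul_zero] at h4
          exact zero_ne_one h4
        have h5 : P (F x 0) = (c (F x 0))⁻¹ := eq_inv_of_mul_eq_one_left h4
        rw [h5, mul_re, inv_re, inv_im] at h2
        have h6 : 0 < Complex.normSq (c (F x 0)) := Complex.normSq_pos.2 hcne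
        have h7 : (orb F x).re * ((c (F x 0)).re / Complex.normSq (c (F x 0))) -
            (orb F x).im * (-(c (F x 0)).im / Complex.normSq (c (F x 0))) =
            ((orb F x).re * (c (F x 0)).re + (orb F x).im * (c (F x 0)).im) /
              Complex.normSq (c (F x 0)) := by
          field_simp
          ring
        rw [h7] at h2
        have h8 : 0 ≤ (orb F x).re * (c (F x 0)).re + (orb F x).im * (c (F x 0)).im := by
          by_contra hcon
          rw [not_le] at hcon
          have := div_neg_of_neg_of_pos hcon h6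
          linarith
        linarith
    have hcont : ContinuousOn (fun t => ‖orb F t‖ ^ 2) (Ici 0) := hF.orb_continuousOn.norm.pow 2
    have := mono_of_right_deriv hcont hd hpos hs hst
    exact le_of_sq_le_sq this (norm_nonneg _)

end Q73.Semi
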