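import Pool.Agent.Q73.Semi.Defs
import Pool.Agent.Q73.Semi.Mono

/-!
# The speeds in half plane coordinates
-/

set_option autoImplicit false

open Complex Metric Set Filter Topology

namespace Q73.Semi

variable {φ : ℝ → ℂ → ℂ} {τ : ℂ}

lemma disc_eq : Disc = ball (0:ℂ) 1 := by
  ext z; simp [Disc]

lemma conj_mul_self {τ : ℂ} (hτ : ‖τ‖ = 1) : (starRingEnd ℂ) τ * τ = 1 := by
  rw [mul_comm, Complex.mul_conj, Complex.normSq_eq_norm_sq, hτ]
  norm_num

/-- the rotated semigroup -/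
noncomputable def rot (φ : ℝ → ℂ → ℂ) (τ : ℂ) (t : ℝ) (w : ℂ) : ℂ :=
  (starRingEnd ℂ) τ * φ t (τ * w)

lemma norm_mul_unit {τ w : ℂ} (hτ : ‖τ‖ = 1) : ‖τ * w‖ = ‖w‖ := by rw [norm_mul, hτ, one_mul]

lemma norm_conj_mul {τ w : ℂ} (hτ : ‖τ‖ = 1) : ‖(starRingEnd ℂ) τ * w‖ = ‖w‖ := by
  rw [norm_mul, Complex.norm_conj, hτ, one_mul]

lemma rot_isDW (hφ : IsSemigroup φ) (hτ : IsDenjoyWolff φ τ) : IsDW (rot φ τ) := by
  have h1 := hτ.1
  have hcj := conj_mul_self h1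
  have hmem : ∀ {w : ℂ}, w ∈ ball (0:ℂ) 1 → τ * w ∈ Disc := by
    intro w hw
    show ‖τ * w‖ < 1
    rw [norm_mul_unit h1]
    simpa using hw
  constructor
  · constructor
    · intro t ht w hw
      have := hφ.mapsTo t ht (hmem hw)
      have h2 : ‖φ t (τ * w)‖ < 1 := this
      simp only [mem_ball_zero_iff, rot]
      rw [norm_conj_mul h1]
      exact h2
    · intro t ht
      unfold rot
      apply DifferentiableOn.const_mul
      exact (hφ.holomorphic t ht).comp (by fun_prop) (fun w hw => hmem hw)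
    · intro w hw
      unfold rot
      rw [hφ.zero _ (hmem hw), ← mul_assoc, hcj, one_mul]
    · intro t s ht hs w hw
      unfold rot
      rw [hφ.add t s ht hs _ (hmem hw)]
      have : τ * ((starRingEnd ℂ) τ * φ s (τ * w)) = φ s (τ * w) := by
        rw [← mul_assoc, mul_comm τ, hcj, one_mul]
      rw [this]
    · intro t₀ ht₀ K hK hKc
      have hK' : (fun w => τ * w) '' K ⊆ Disc := by
        rintro _ ⟨w, hw, rfl⟩
        exact hmem (hK hw)
      have hKc' : IsCompact ((fun w => τ * w) '' K) := hKc.image (by fun_prop)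
      have h2 := hφ.continuous t₀ ht₀ _ hK' hKc'
      rw [Metric.tendstoUniformlyOn_iff] at h2 ⊢
      intro ε hε
      filter_upwards [h2 ε hε] with t ht w hw
      have h3 := ht (τ * w) ⟨w, hw, rfl⟩
      unfold rot
      rw [dist_eq_norm] at h3 ⊢
      rw [← mul_sub, norm_conj_mul h1]
      exact h3
  · have h2 := hτ.2 0 (by simp [Disc])
    have h3 : Tendsto (fun t => (starRingEnd ℂ) τ * φ t 0) atTop (𝓝 ((starRingEnd ℂ) τ * τ)) :=
      h2.const_mul _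
    rw [hcj] at h3
    simpa [rot] using h3

lemma rot_zero (t : ℝ) : rot φ τ t 0 = (starRingEnd ℂ) τ * φ t 0 := by simp [rot]

/-! ### The pseudohyperbolic distance to the diameter -/

/-- the parameter on the diameter with `cay r = a` -/
noncomputable def rad (a : ℝ) : ℝ := (a - 1) / (a + 1)

lemma rad_mem {a : ℝ} (ha : 0 < a) : rad a ∈ Ioo (-1:ℝ) 1 := by
  unfold rad
  constructor
  · rw [lt_div_iff₀ (by linarith)]; linarith
  · rw [div_lt_one (by linarith)]; linarith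

lemma norm_T_rot {τ z : ℂ} (hτ : ‖τ‖ = 1) (r : ℝ) :
    ‖T (r * τ) z‖ = ‖T r ((starRingEnd ℂ) τ * z)‖ := by
  have hcj := conj_mul_self hτ
  unfold T
  rw [norm_div, norm_div]
  congr 1
  · have : (r:ℂ) * τ - z = τ * (r - (starRingEnd ℂ) τ * z) := by
      linear_combination z * hcj
    rw [this, norm_mul_unit hτ]
  · congr 1
    simp
    ring

/-- the key identity -/
lemma one_sub_T_sq {z : ℂ} (hz : ‖z‖ < 1) {a : ℝ} (ha : 0 < a) :
    1 - ‖T (rad a) z‖ ^ 2 =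
      4 * a * (cay z).re / (a ^ 2 + 2 * a * (cay z).re + ‖cay z‖ ^ 2) := by
  have hne := one_sub_ne hz
  have hne2 : ((a:ℂ) + 1) ≠ 0 := by
    have : (a:ℂ) + 1 = ((a + 1 : ℝ) : ℂ) := by push_cast; rfl
    rw [this]
    exact_mod_cast (by linarith : a + 1 ≠ 0)
  have hre := cay_re_pos hz
  set Z := cay z with hZ
  -- `T (rad a) z` in terms of `Z`
  have hz2 : z = (Z - 1) / (Z + 1) := by
    have h1 : Z + 1 = 2 / (1 - z) := by
      rw [hZ]; unfold cay; field_simp; ring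
    have h2 : Z - 1 = 2 * z / (1 - z) := by
      rw [hZ]; unfold cay; field_simp; ring
    rw [h1, h2]
    field_simp
  have hZ1 : Z + 1 ≠ 0 := by
    intro h
    have := congrArg Complex.re h
    simp at this
    linarith
  have haZ : (a:ℂ) + Z ≠ 0 := by
    intro h
    have := congrArg Complex.re h
    simp at this
    linarith
  have hT : T (rad a) z = (a - Z) / (a + Z) := by
    unfold T rad
    rw [Complex.conj_ofReal]
    push_cast
    rw [hz2]
    have h3 : 1 - ((a:ℂ) - 1) / (a + 1) * ((Z - 1) / (Z + 1)) =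
        2 * (a + Z) / ((a + 1) * (Z + 1)) := by
      field_simp
      ring
    have h4 : ((a:ℂ) - 1) / (a + 1) - (Z - 1) / (Z + 1) =
        2 * (a - Z) / ((a + 1) * (Z + 1)) := by
      field_simp
      ring
    rw [h3, h4]
    field_simp
  rw [hT, norm_div, div_pow]
  have e1 : ‖(a:ℂ) - Z‖ ^ 2 = a ^ 2 - 2 * a * Z.re + ‖Z‖ ^ 2 := by
    rw [← Complex.normSq_eq_norm_sq, ← Complex.normSq_eq_norm_sq, Complex.normSq_apply,
      Complex.normSq_apply]
    simp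
    ring
  have e2 : ‖(a:ℂ) + Z‖ ^ 2 = a ^ 2 + 2 * a * Z.re + ‖Z‖ ^ 2 := by
    rw [← Complex.normSq_eq_norm_sq, ← Complex.normSq_eq_norm_sq, Complex.normSq_apply,
      Complex.normSq_apply]
    simp
    ring
  rw [e1, e2]
  have hpos : 0 < a ^ 2 + 2 * a * Z.re + ‖Z‖ ^ 2 := by positivity
  field_simp
  ring

lemma norm_T_lt {z : ℂ} (hz : ‖z‖ < 1) {a : ℝ} (ha : 0 < a) : ‖T (rad a) z‖ < 1 := by
  have h1 := one_sub_T_sq hz ha
  have h2 := cay_re_pos hz
  have h3 : 0 < 1 - ‖T (rad a) z‖ ^ 2 := by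
    rw [h1]; positivity
  nlinarith [norm_nonneg (T (rad a) z)]

/-- every point of the diameter has the form `rad a` -/
lemma exists_rad {r : ℝ} (hr : r ∈ Ioo (-1:ℝ) 1) : ∃ a : ℝ, 0 < a ∧ r = rad a := by
  refine ⟨(1 + r) / (1 - r), div_pos (by linarith [hr.1]) (by linarith [hr.2]), ?_⟩
  have : 1 - r ≠ 0 := by linarith [hr.2]
  unfold rad
  have h1 : (1 + r) / (1 - r) - 1 = 2 * r / (1 - r) := by field_simp; ring
  have h2 : (1 + r) / (1 - r) + 1 = 2 / (1 - r) := by field_simp; ring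
  rw [h1, h2]
  field_simp

lemma hdist_le_iff {p q z : ℂ} (hp : ‖T p z‖ < 1) (hq : ‖T q z‖ < 1) :
    hdist p z ≤ hdist q z ↔ ‖T p z‖ ≤ ‖T q z‖ := by
  unfold hdist
  have h1 : 0 < 1 - ‖T p z‖ := by linarith
  have h2 : 0 < 1 - ‖T q z‖ := by linarith
  have h3 := norm_nonneg (T p z)
  have h4 := norm_nonneg (T q z)
  rw [mul_le_mul_iff_right₀ (by norm_num : (0:ℝ) < 1 / 2), Real.log_le_log_iff (by positivity)
    (by positivity), div_le_div_iff₀ h1 h2]
  constructor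
  · intro h; nlinarith
  · intro h; nlinarith

/-- comparison with the closest point -/
lemma T_min {z : ℂ} (hz : ‖z‖ < 1) {a : ℝ} (ha : 0 < a) :
    ‖T (rad ‖cay z‖) z‖ ≤ ‖T (rad a) z‖ ∧
      (‖T (rad a) z‖ ≤ ‖T (rad ‖cay z‖) z‖ → a = ‖cay z‖) := by
  have hre := cay_re_pos hz
  have hρ : 0 < ‖cay z‖ := by
    rw [norm_pos_iff]; intro h; rw [h] at hre; simp at hre
  have h1 := one_sub_T_sq hz ha
  have h2 := one_sub_T_sq hz hρ
  set ρ := ‖cay z‖
  set X := (cay z).re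
  have hp1 : 0 < a ^ 2 + 2 * a * X + ρ ^ 2 := by positivity
  have hp2 : 0 < ρ ^ 2 + 2 * ρ * X + ρ ^ 2 := by positivity
  have key : 4 * ρ * X / (ρ ^ 2 + 2 * ρ * X + ρ ^ 2) - 4 * a * X / (a ^ 2 + 2 * a * X + ρ ^ 2) =
      4 * X * ρ * (a - ρ) ^ 2 / ((ρ ^ 2 + 2 * ρ * X + ρ ^ 2) * (a ^ 2 + 2 * a * X + ρ ^ 2)) := by
    field_simp
    ring
  constructor
  · have h3 : 0 ≤ 4 * X * ρ * (a - ρ) ^ 2 /
        ((ρ ^ 2 + 2 * ρ * X + ρ ^ 2) * (a ^ 2 + 2 * a * X + ρ ^ 2)) := by positivity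
    have h4 : ‖T (rad ρ) z‖ ^ 2 ≤ ‖T (rad a) z‖ ^ 2 := by linarith
    exact le_of_sq_le_sq h4 (norm_nonneg _)
  · intro h
    have h4 : ‖T (rad a) z‖ ^ 2 ≤ ‖T (rad ρ) z‖ ^ 2 := by
      gcongr
    have h5 : 4 * X * ρ * (a - ρ) ^ 2 /
        ((ρ ^ 2 + 2 * ρ * X + ρ ^ 2) * (a ^ 2 + 2 * a * X + ρ ^ 2)) ≤ 0 := by linarith
    have h6 : 4 * X * ρ * (a - ρ) ^ 2 ≤ 0 := by
      by_contra hcon
      rw [not_le] at hcon
      have := div_pos hcon (mul_pos hp2 hp1)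
      linarith
    have h7 : (a - ρ) ^ 2 ≤ 0 := by
      by_contra hcon
      rw [not_le] at hcon
      have : 0 < 4 * X * ρ * (a - ρ) ^ 2 := by positivity
      linarith
    have h8 : (a - ρ) ^ 2 = 0 := le_antisymm h7 (sq_nonneg _)
    have := pow_eq_zero_iff (two_ne_zero) |>.1 h8
    linarith

/-- **The projection**: it is unique, and it is the point `rad ρ · τ`, `ρ = |cay (conj τ z)|`. -/
lemma isProjection_iff {τ z : ℂ} (hτ : ‖τ‖ = 1) (hz : z ∈ Disc) (p : ℂ) :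
    IsProjection τ z p ↔ p = (rad ‖cay ((starRingEnd ℂ) τ * z)‖ : ℂ) * τ := by
  set w := (starRingEnd ℂ) τ * z with hw
  have hwn : ‖w‖ < 1 := by rw [hw, norm_conj_mul hτ]; exact hz
  have hre := cay_re_pos hwn
  have hρ : 0 < ‖cay w‖ := by
    rw [norm_pos_iff]; intro h; rw [h] at hre; simp at hre
  have hTn : ∀ r ∈ Ioo (-1:ℝ) 1, ‖T (r * τ) z‖ < 1 := by
    intro r hr
    obtain ⟨a, ha, rfl⟩ := exists_rad hr
    rw [norm_T_rot hτ]
    exact norm_T_lt hwn ha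
  constructor
  · rintro ⟨⟨r, hr, rfl⟩, hmin⟩
    obtain ⟨a, ha, hra⟩ := exists_rad hr
    have h1 := hmin (rad ‖cay w‖) (rad_mem hρ)
    rw [hdist_le_iff (hTn r hr) (hTn _ (rad_mem hρ)), norm_T_rot hτ, norm_T_rot hτ, hra] at h1
    have h2 := (T_min hwn ha).2 h1
    rw [hra, h2]
  · rintro rfl
    refine ⟨⟨_, rad_mem hρ, rfl⟩, fun r hr => ?_⟩
    rw [hdist_le_iff (hTn _ (rad_mem hρ)) (hTn _ hr), norm_T_rot hτ, norm_T_rot hτ]
    obtain ⟨a, ha, rfl⟩ := exists_rad hr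
    exact (T_min hwn ha).1

lemma proj_eq {τ z : ℂ} (hτ : ‖τ‖ = 1) (hz : z ∈ Disc) :
    proj τ z = (rad ‖cay ((starRingEnd ℂ) τ * z)‖ : ℂ) * τ := by
  have h1 : IsProjection τ z ((rad ‖cay ((starRingEnd ℂ) τ * z)‖ : ℂ) * τ) :=
    (isProjection_iff hτ hz _).2 rfl
  have h2 : IsProjection τ z (proj τ z) := Classical.epsilon_spec ⟨_, h1⟩
  exact (isProjection_iff hτ hz _).1 h2

/-- the projection exists and is unique -/
theorem existsUnique_projection {τ z : ℂ} (hτ : ‖τ‖ = 1) (hz : z ∈ Disc) :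
    ∃! p, IsProjection τ z p :=
  ⟨_, (isProjection_iff hτ hz _).2 rfl, fun _ hp => (isProjection_iff hτ hz _).1 hp⟩

/-- **The orthogonal speed is `1/2 log |z_t|`.** -/
theorem orthogonalSpeed_eq (hφ : IsSemigroup φ) (hτ : IsDenjoyWolff φ τ) {t : ℝ} (ht : 0 ≤ t) :
    orthogonalSpeed φ τ t = 1 / 2 * Real.log ‖orb (rot φ τ) t‖ := by
  have hDW := rot_isDW hφ hτ
  have h0 : (0:ℂ) ∈ Disc := by simp [Disc]
  unfold orthogonalSpeed
  rw [proj_eq hτ.1 (hφ.mapsTo t ht h0)]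
  have e1 : cay ((starRingEnd ℂ) τ * φ t 0) = orb (rot φ τ) t := by
    unfold orb; rw [rot_zero]
  rw [e1]
  have h1 : 1 ≤ ‖orb (rot φ τ) t‖ := by
    have := hDW.norm_orb_mono le_rfl ht
    rwa [hDW.orb_zero, norm_one] at this
  set ρ := ‖orb (rot φ τ) t‖
  unfold hdist
  have h2 : ‖T 0 ((rad ρ : ℂ) * τ)‖ = rad ρ := by
    unfold T
    simp only [map_zero, zero_mul, sub_zero, div_one, zero_sub, norm_neg]
    rw [norm_mul, hτ.1, mul_one, Complex.norm_real, Real.norm_eq_abs, abs_of_nonneg]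
    unfold rad
    exact div_nonneg (by linarith) (by linarith)
  rw [h2]
  congr 2
  unfold rad
  have h3 : 1 + (ρ - 1) / (ρ + 1) = 2 * ρ / (ρ + 1) := by field_simp; ring
  have h4 : 1 - (ρ - 1) / (ρ + 1) = 2 / (ρ + 1) := by field_simp; ring
  rw [h3, h4]
  field_simp

/-- **The orthogonal speed is nondecreasing.** -/
theorem orthogonalSpeed_mono (hφ : IsSemigroup φ) (hτ : IsDenjoyWolff φ τ) :
    MonotoneOn (orthogonalSpeed φ τ) (Ici 0) := by
  intro s hs t _ hst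
  have hs0 : 0 ≤ s := hs
  have ht0 : 0 ≤ t := hs0.trans hst
  have hDW := rot_isDW hφ hτ
  rw [orthogonalSpeed_eq hφ hτ hs0, orthogonalSpeed_eq hφ hτ ht0]
  have h1 : 1 ≤ ‖orb (rot φ τ) s‖ := by
    have := hDW.norm_orb_mono le_rfl hs0
    rwa [hDW.orb_zero, norm_one] at this
  have h2 := hDW.norm_orb_mono hs0 hst
  have := Real.log_le_log (by linarith) h2
  linarith

end Q73.Semi
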