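import Pool.Agent.Q73.Semi.Speed

/-!
# The tangential speed of a non-elliptic semigroup

For the orbit `z_t` of `1` in the right half plane (Denjoy-Wolff point at infinity) we prove
`|z_t| ≤ C t Re z_t` for `t ≥ 1`, and deduce `v^T(t) ≤ 1/2 log t + C`.
-/

set_option autoImplicit false

open Complex Set Filter Topology Metric MeasureTheory intervalIntegral

namespace Q73.Semi

/-- the inverse Cayley transform -/
noncomputable def icay (ζ : ℂ) : ℂ := (ζ - 1) / (ζ + 1)

lemma add_one_ne {ζ : ℂ} (hζ : 0 < ζ.re) : ζ + 1 ≠ 0 := by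
  intro h
  have := congrArg Complex.re h
  simp at this
  linarith

lemma norm_icay_lt {ζ : ℂ} (hζ : 0 < ζ.re) : ‖icay ζ‖ < 1 := by
  unfold icay
  rw [norm_div, div_lt_one (norm_pos_iff.2 (add_one_ne hζ))]
  apply lt_of_pow_lt_pow_left₀ 2 (norm_nonneg _)
  rw [← Complex.normSq_eq_norm_sq, ← Complex.normSq_eq_norm_sq, Complex.normSq_apply,
    Complex.normSq_apply]
  simp
  nlinarith

lemma icay_cay {w : ℂ} (hw : ‖w‖ < 1) : icay (cay w) = w := by
  have h := one_sub_ne hw
  have h1 : cay w + 1 = 2 / (1 - w) := by unfold cay; field_simp; ring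
  have h2 : cay w - 1 = 2 * w / (1 - w) := by unfold cay; field_simp; ring
  unfold icay
  rw [h1, h2]
  field_simp

lemma hasDerivAt_icay {ζ : ℂ} (hζ : 0 < ζ.re) : HasDerivAt icay (2 / (ζ + 1) ^ 2) ζ := by
  have h := add_one_ne hζ
  have h1 : HasDerivAt (fun ζ : ℂ => (ζ - 1) / (ζ + 1))
      ((1 * (ζ + 1) - (ζ - 1) * 1) / (ζ + 1) ^ 2) ζ :=
    ((hasDerivAt_id ζ).sub_const 1).div ((hasDerivAt_id ζ).add_const 1) h
  refine h1.congr_deriv ?_
  ring

variable {F : ℝ → ℂ → ℂ}

/-- **Main estimate**: `|z_t| ≤ C t Re z_t` for `t ≥ 1`. -/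
theorem IsDW.ratio_bound (hF : IsDW F) :
    ∃ C : ℝ, 0 < C ∧ ∀ t, 1 ≤ t → ‖orb F t‖ ≤ C * t * (orb F t).re := by
  rcases hF.structure with ⟨β, hβ⟩ | ⟨c, P, K, hPd, hc, hP, hPc, hder, hK, hKt⟩
  · refine ⟨1 + |β|, by positivity, fun t ht => ?_⟩
    have h1 : (orb F t).re = 1 := by
      rw [hβ t (by linarith)]
      simp
    rw [h1, hβ t (by linarith)]
    calc ‖(1 + I * β * t : ℂ)‖ ≤ ‖(1:ℂ)‖ + ‖(I * β * t : ℂ)‖ := norm_add_le _ _
      _ = 1 + |β| * t := by
          simp [abs_of_nonneg (by linarith : (0:ℝ) ≤ t)]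
      _ ≤ (1 + |β|) * t * 1 := by nlinarith [abs_nonneg β]
  · -- the primitive in the half plane
    set h : ℂ → ℂ := fun ζ => K (icay ζ) with hh
    have hhd : ∀ ζ : ℂ, 0 < ζ.re → HasDerivAt h (P (icay ζ)) ζ := by
      intro ζ hζ
      have h1 := (hK (icay ζ) (norm_icay_lt hζ)).comp ζ (hasDerivAt_icay hζ)
      refine h1.congr_deriv ?_
      have h2 := add_one_ne hζ
      have h3 : 1 - icay ζ = 2 / (ζ + 1) := by unfold icay; field_simp; ring
      rw [h3]
      field_simp
    -- the compact set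
    set S : Set ℂ := closedBall (1:ℂ) 1 ∩ {ζ | 1 ≤ ζ.re} with hS
    have hScomp : IsCompact S :=
      (isCompact_closedBall _ _).inter_right (isClosed_le continuous_const Complex.continuous_re)
    have hSne : S.Nonempty := ⟨1, by simp [hS]⟩
    have hcont : ContinuousOn (fun ζ => (P (icay ζ)).re) S := by
      intro ζ hζ
      have hζ0 : 0 < ζ.re := lt_of_lt_of_le one_pos hζ.2
      have h1 : ContinuousAt P (icay ζ) := by
        have := norm_icay_lt hζ0
        exact (hPd.differentiableAt (isOpen_ball.mem_nhds (by simpa using this))).continuousAt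
      have h2 : ContinuousAt (fun ζ => P (icay ζ)) ζ :=
        ContinuousAt.comp (f := icay) (g := P) h1 (hasDerivAt_icay hζ0).continuousAt
      exact (Complex.continuous_re.continuousAt.comp h2).continuousWithinAt
    obtain ⟨ζ₀, hζ₀, hmin⟩ := hScomp.exists_isMinOn hSne hcont
    set c₁ := (P (icay ζ₀)).re with hc₁
    have hc₁pos : 0 < c₁ := hP _ (norm_icay_lt (lt_of_lt_of_le one_pos hζ₀.2))
    have hmin' : ∀ ζ ∈ S, c₁ ≤ (P (icay ζ)).re := fun ζ hζ => hmin hζ
    refine ⟨2 + 2 / c₁, by positivity, fun t ht => ?_⟩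
    have ht0 : 0 ≤ t := by linarith
    set z := orb F t with hz
    have hX : 1 ≤ z.re := hF.one_le_orb_re ht0
    set d := z - 1 with hd
    have hdre : 0 ≤ d.re := by rw [hd]; simp; exact hX
    have hzd : z = 1 + d := by rw [hd]; ring
    have hρ : ‖z‖ ≤ 1 + ‖d‖ := by
      rw [hzd]
      calc ‖1 + d‖ ≤ ‖(1:ℂ)‖ + ‖d‖ := norm_add_le _ _
        _ = 1 + ‖d‖ := by simp
    rcases lt_or_ge ‖d‖ 1 with hR | hR
    · have h1 : ‖z‖ ≤ 2 := by linarith
      have h2 : (2:ℝ) ≤ 2 * t * z.re := by nlinarith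
      have h3 : 0 ≤ 2 / c₁ * t * z.re := by positivity
      nlinarith
    · -- the function along the segment
      set R := ‖d‖ with hRdef
      have hRpos : 0 < R := by linarith
      have hpt : ∀ τ : ℝ, 0 ≤ τ → 1 ≤ (1 + (τ:ℂ) * d).re := by
        intro τ hτ
        simp
        positivity
      set ψ : ℝ → ℝ := fun τ => ((starRingEnd ℂ) d * h (1 + (τ:ℂ) * d)).re with hψ
      have hψd : ∀ τ : ℝ, 0 ≤ τ →
          HasDerivAt ψ (R ^ 2 * (P (icay (1 + (τ:ℂ) * d))).re) τ := by
        intro τ hτ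
        have h1 := hhd _ (lt_of_lt_of_le one_pos (hpt τ hτ))
        have h2 : HasDerivAt (fun τ : ℝ => 1 + (τ:ℂ) * d) d τ := by
          have := ((Complex.ofRealCLM.hasDerivAt (x := τ)).mul_const d).const_add 1
          simpa using this
        have h3 : HasDerivAt (fun τ : ℝ => (starRingEnd ℂ) d * h (1 + (τ:ℂ) * d))
            ((starRingEnd ℂ) d * (P (icay (1 + (τ:ℂ) * d)) * d)) τ :=
          (h1.comp τ h2).const_mul _
        have h4 := Complex.reCLM.hasFDerivAt.comp_hasDerivAt τ h3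
        have h5 : HasDerivAt ψ ((starRingEnd ℂ) d * (P (icay (1 + (τ:ℂ) * d)) * d)).re τ := by
          simpa [Function.comp_def, hψ] using h4
        refine h5.congr_deriv ?_
        have h6 : (starRingEnd ℂ) d * (P (icay (1 + (τ:ℂ) * d)) * d) =
            ((R ^ 2 : ℝ) : ℂ) * P (icay (1 + (τ:ℂ) * d)) := by
          have h7 : (starRingEnd ℂ) d * d = ((R ^ 2 : ℝ) : ℂ) := by
            rw [mul_comm, Complex.mul_conj, Complex.normSq_eq_norm_sq]
          linear_combination (P (icay (1 + (τ:ℂ) * d))) * h7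
        rw [h6, Complex.re_ofReal_mul]
      have hψc : ContinuousOn ψ (Icc 0 1) := fun τ hτ =>
        (hψd τ hτ.1).continuousAt.continuousWithinAt
      -- value of the total increment
      have htot : ψ 1 - ψ 0 = t * (z.re - 1) := by
        have e1 : h z = K (F t 0) := by
          rw [hh, hz]
          show K (icay (cay (F t 0))) = _
          rw [icay_cay (hF.norm_lt ht0 (by simp))]
        have e2 : h 1 = K 0 := by
          rw [hh]
          show K (icay 1) = _
          unfold icay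
          simp
        have e3 : h z - h 1 = t := by rw [e1, e2]; exact hKt t ht0
        have e4 : ψ 1 - ψ 0 = ((starRingEnd ℂ) d * (h z - h 1)).re := by
          simp only [hψ]
          rw [← Complex.sub_re, ← mul_sub]
          simp only [ofReal_one, one_mul, ofReal_zero, zero_mul, add_zero]
          rw [← hzd]
        rw [e4, e3, mul_comm, Complex.re_ofReal_mul]
        simp [hd]
      -- monotonicity
      have hmono : MonotoneOn ψ (Icc 0 1) := by
        apply monotoneOn_of_deriv_nonneg (convex_Icc 0 1) hψc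
        · intro τ hτ
          rw [interior_Icc] at hτ
          exact (hψd τ hτ.1.le).differentiableAt.differentiableWithinAt
        · intro τ hτ
          rw [interior_Icc] at hτ
          rw [(hψd τ hτ.1.le).deriv]
          have := hP _ (norm_icay_lt (lt_of_lt_of_le one_pos (hpt τ hτ.1.le)))
          positivity
      have hR1 : 1 / R ≤ 1 := by rw [div_le_one hRpos]; exact hR
      have hR0 : 0 < 1 / R := by positivity
      have h1 : ψ (1 / R) ≤ ψ 1 := hmono ⟨hR0.le, hR1⟩ ⟨zero_le_one, le_rfl⟩ hR1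
      -- mean value on the first piece
      have h2 : c₁ * R ≤ ψ (1 / R) - ψ 0 := by
        obtain ⟨τ, hτ, hτe⟩ := exists_hasDerivAt_eq_slope ψ
          (fun τ => R ^ 2 * (P (icay (1 + (τ:ℂ) * d))).re) hR0
          (hψc.mono (Icc_subset_Icc le_rfl hR1)) (fun τ hτ => hψd τ hτ.1.le)
        have hmem : (1 + (τ:ℂ) * d) ∈ S := by
          refine ⟨?_, hpt τ hτ.1.le⟩
          rw [mem_closedBall, dist_eq_norm, add_sub_cancel_left, norm_mul, Complex.norm_real,
            Real.norm_eq_abs, abs_of_pos hτ.1]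
          have : τ * R ≤ 1 / R * R := by
            apply mul_le_mul_of_nonneg_right hτ.2.le hRpos.le
          rwa [one_div, inv_mul_cancel₀ hRpos.ne'] at this
        have h3 := hmin' _ hmem
        rw [eq_div_iff (by simpa using hRpos.ne')] at hτe
        rw [← hτe]
        have h4 : R ^ 2 * (P (icay (1 + (τ:ℂ) * d))).re * (1 / R - 0) =
            R * (P (icay (1 + (τ:ℂ) * d))).re := by
          field_simp
          ring
        rw [h4]
        nlinarith
      have h5 : c₁ * R ≤ t * (z.re - 1) := by linarith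
      have h6 : R ≤ t * z.re / c₁ := by
        rw [le_div_iff₀ hc₁pos]
        nlinarith
      have h7 : ‖z‖ ≤ 2 * R := by linarith
      calc ‖z‖ ≤ 2 * R := h7
        _ ≤ 2 * (t * z.re / c₁) := by linarith
        _ = 2 / c₁ * t * z.re := by ring
        _ ≤ (2 + 2 / c₁) * t * z.re := by
            have : 0 ≤ 2 * t * z.re := by positivity
            nlinarith

lemma norm_T_comm (z w : ℂ) : ‖T z w‖ = ‖T w z‖ := by
  unfold T
  rw [norm_div, norm_div, norm_sub_rev z w]
  congr 1
  rw [← Complex.norm_conj (1 - (starRingEnd ℂ) z * w)]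
  congr 1
  simp
  ring

variable {φ : ℝ → ℂ → ℂ} {τ : ℂ}

/-- the tangential speed is at most `1/2 log (4 |z_t| / Re z_t)` -/
theorem tangentialSpeed_le (hφ : IsSemigroup φ) (hτ : IsDenjoyWolff φ τ) {t : ℝ} (ht : 0 ≤ t) :
    tangentialSpeed φ τ t ≤
      1 / 2 * Real.log (4 * ‖orb (rot φ τ) t‖ / (orb (rot φ τ) t).re) := by
  have hDW := rot_isDW hφ hτ
  have h0 : (0:ℂ) ∈ Disc := by simp [Disc]
  unfold tangentialSpeed
  rw [proj_eq hτ.1 (hφ.mapsTo t ht h0)]
  have e1 : cay ((starRingEnd ℂ) τ * φ t 0) = orb (rot φ τ) t := by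
    unfold orb; rw [rot_zero]
  rw [e1]
  set Z := orb (rot φ τ) t with hZ
  have hX : 1 ≤ Z.re := hDW.one_le_orb_re ht
  set ρ := ‖Z‖ with hρdef
  have hρX : Z.re ≤ ρ := Complex.re_le_norm Z
  have hρ : 0 < ρ := by linarith
  have hw : ‖rot φ τ t 0‖ < 1 := hDW.norm_lt ht (by simp)
  unfold hdist
  rw [norm_T_comm, norm_T_rot hτ.1, ← rot_zero]
  have h1 := one_sub_T_sq hw hρ
  have e2 : cay (rot φ τ t 0) = Z := rfl
  rw [e2, ← hρdef] at h1
  have h2 := norm_T_lt hw hρ
  set s := ‖T (rad ρ) (rot φ τ t 0)‖ with hs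
  have hs0 : 0 ≤ s := norm_nonneg _
  have h3 : 1 - s ^ 2 = 2 * Z.re / (ρ + Z.re) := by
    rw [h1]
    rw [div_eq_div_iff (by positivity) (by positivity)]
    ring
  have h4 : 0 < 1 - s := by linarith
  have h5 : (1 + s) / (1 - s) ≤ 4 * ρ / Z.re := by
    have h6 : (1 + s) / (1 - s) = (1 + s) ^ 2 / (1 - s ^ 2) := by
      rw [div_eq_div_iff h4.ne' (by nlinarith)]
      ring
    rw [h6, h3, div_div_eq_mul_div]
    rw [div_le_div_iff₀ (by linarith) (by linarith)]
    have h7 : (1 + s) ^ 2 ≤ 4 := by nlinarith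
    have h8 : (1 + s) ^ 2 * (ρ + Z.re) ≤ 4 * (2 * ρ) := by
      apply mul_le_mul h7 (by linarith) (by linarith) (by norm_num)
    have h9 : 0 < Z.re := by linarith
    nlinarith
  have h10 : Real.log ((1 + s) / (1 - s)) ≤ Real.log (4 * ρ / Z.re) :=
    Real.log_le_log (by positivity) h5
  linarith

/-- **The tangential speed is at most `1/2 log t + C`.** -/
theorem tangentialSpeed_bound (hφ : IsSemigroup φ) (hτ : IsDenjoyWolff φ τ) :
    ∃ C : ℝ, ∀ t, 1 ≤ t → tangentialSpeed φ τ t ≤ 1 / 2 * Real.log t + C := by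
  have hDW := rot_isDW hφ hτ
  obtain ⟨C, hC, hb⟩ := hDW.ratio_bound
  refine ⟨1 / 2 * Real.log (4 * C), fun t ht => ?_⟩
  have h1 := tangentialSpeed_le hφ hτ (by linarith : 0 ≤ t)
  have h2 := hb t ht
  have hX : 1 ≤ (orb (rot φ τ) t).re := hDW.one_le_orb_re (by linarith)
  have hρX : (orb (rot φ τ) t).re ≤ ‖orb (rot φ τ) t‖ := Complex.re_le_norm _
  have h3 : 4 * ‖orb (rot φ τ) t‖ / (orb (rot φ τ) t).re ≤ 4 * C * t := by
    rw [div_le_iff₀ (by linarith)]
    linarith
  have h4 : Real.log (4 * ‖orb (rot φ τ) t‖ / (orb (rot φ τ) t).re) ≤ Real.log (4 * C * t) := by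
    apply Real.log_le_log _ h3
    have : 0 < ‖orb (rot φ τ) t‖ := by linarith
    positivity
  rw [Real.log_mul (by positivity) (by positivity)] at h4
  linarith

end Q73.Semi
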